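import Pool.Agent.Work.MP_8dbde4_lc.TS.Horn

/-!
# Sanity checks: semilattice operations, and a temporal template which is not in Datalog
-/

namespace Pool.Agent.Work.MP_8dbde4_lc.TS

/-- A structure whose relations are preserved by the meet of a semilattice has
totally symmetric polymorphisms of all (positive) arities. -/
theorem hasTS_of_semilattice {σ : Sig} {B : Type} [SemilatticeInf B] (𝔅 : Str σ B)
    (h : ∀ (R : σ.S) (s t : Fin (σ.ar R) → B), 𝔅.rel R s → 𝔅.rel R t →
      𝔅.rel R (fun j => s j ⊓ t j)) : HasTS 𝔅 := by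
  classical
  intro N
  refine ⟨N + 1, by omega, fun x => Finset.univ.inf' Finset.univ_nonempty x, ?_, ?_⟩
  · intro R t ht
    have key : ∀ (s : Finset (Fin (N + 1))) (hs : s.Nonempty),
        𝔅.rel R (fun j => s.inf' hs (fun i => t i j)) := by
      intro s hs
      induction hs using Finset.Nonempty.cons_induction with
      | singleton a => simpa using ht a
      | cons a s ha hs ih =>
        have := h R _ _ (ht a) ih
        have e : (fun j => (Finset.cons a s ha).inf' (Finset.cons_nonempty ha)
            (fun i => t i j)) = fun j => t a j ⊓ s.inf' hs (fun i => t i j) := by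
          funext j
          rw [Finset.inf'_cons hs]
        rw [e]
        exact this
    exact key _ _
  · intro x y hxy
    apply le_antisymm
    · apply Finset.le_inf'
      intro i _
      obtain ⟨k, hk⟩ : y i ∈ Set.range x := by rw [hxy]; exact ⟨i, rfl⟩
      rw [← hk]
      exact Finset.inf'_le _ (Finset.mem_univ k)
    · apply Finset.le_inf'
      intro i _
      obtain ⟨k, hk⟩ : x i ∈ Set.range y := by rw [← hxy]; exact ⟨i, rfl⟩
      rw [← hk]
      exact Finset.inf'_le _ (Finset.mem_univ k)

/-- The signature with one ternary relation symbol. -/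
def sig3 : Sig := ⟨Unit, inferInstance, fun _ => 3⟩

/-- The temporal template `(ℚ; x > y ∨ x > z)`, whose CSP is not in Datalog, is in the class. -/
example : HasTS (σ := sig3) (B := ℚ) ⟨fun _ t => t (1 : Fin 3) < t (0 : Fin 3) ∨
    t (2 : Fin 3) < t (0 : Fin 3)⟩ := by
  apply hasTS_of_semilattice
  rintro R s t hs ht
  show _ ∨ _
  simp only [min_lt_iff, lt_min_iff]
  rcases le_total (s (0 : Fin 3)) (t (0 : Fin 3)) with h | h
  · rcases hs with h1 | h1
    · exact Or.inl ⟨Or.inl h1, Or.inl (h1.trans_le h)⟩
    · exact Or.inr ⟨Or.inl h1, Or.inl (h1.trans_le h)⟩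
  · rcases ht with h1 | h1
    · exact Or.inl ⟨Or.inr (h1.trans_le h), Or.inr h1⟩
    · exact Or.inr ⟨Or.inr (h1.trans_le h), Or.inr h1⟩

end Pool.Agent.Work.MP_8dbde4_lc.TS
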