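import Pool.Agent.Work.MP_8dbde4_lc.TS.Horn

/-!
# The question is invariant under Horn closure
-/

namespace Pool.Agent.Work.MP_8dbde4_lc.TS

open Pool.Agent.Work.MP_8dbde4_lc.TS.FP

variable {σ : Sig} {A : Type} {B : Type}

/-- formulas over fewer relation symbols -/
def lift {P : Set σ.S} : FP (σ.sub P) → FP σ
  | .rel R xs => .rel R.1 xs
  | .eq x y => .eq x y
  | .app X xs => .app X xs
  | .neg φ => .neg (lift φ)
  | .and φ ψ => .and (lift φ) (lift ψ)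
  | .ex x φ => .ex x (lift φ)
  | .ifp X ys φ xs => .ifp X ys (lift φ) xs

lemma eval_lift {P : Set σ.S} (𝔄 : Str σ A) : ∀ (φ : FP (σ.sub P)) (v : ℕ → A)
    (β : ℕ → List A → Prop), (lift φ).eval 𝔄 v β ↔ φ.eval (𝔄.sub P) v β
  | .rel R xs, v, β => Iff.rfl
  | .eq x y, v, β => Iff.rfl
  | .app X xs, v, β => Iff.rfl
  | .neg φ, v, β => not_congr (eval_lift 𝔄 φ v β)
  | .and φ ψ, v, β => and_congr (eval_lift 𝔄 φ v β) (eval_lift 𝔄 ψ v β)
  | .ex x φ, v, β => exists_congr fun a => eval_lift 𝔄 φ _ β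
  | .ifp X ys φ xs, v, β => by
    show (∃ n, stage _ n (xs.map v)) ↔ (∃ n, stage _ n (xs.map v))
    have key : (fun (P : List A → Prop) l => ys.Nodup ∧ l.length = ys.length ∧
        (lift φ).eval 𝔄 (upd v ys l) (Function.update β X P)) =
        (fun (P' : List A → Prop) l => ys.Nodup ∧ l.length = ys.length ∧
        φ.eval (𝔄.sub P) (upd v ys l) (Function.update β X P')) := by
      funext P' l
      rw [eval_lift 𝔄 φ]
    exact exists_congr fun n => by rw [key]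

/-- the false formula -/
def ffC {σ : Sig} : FPC σ := .and (.eq 0 0) (.neg (.eq 0 0))

lemma eval_ffC (𝔄 : Str σ A) (v : ℕ → A) (ν : ℕ → ℕ) (β : ℕ → List Bool → List (A ⊕ ℕ) → Prop) :
    (ffC : FPC σ).eval 𝔄 v ν β ↔ False := by
  show (v 0 = v 0 ∧ ¬ v 0 = v 0) ↔ False
  simp

open Classical in
/-- formulas over fewer relation symbols: replace the other symbols by the empty relation -/
noncomputable def restr (P : Set σ.S) (R : σ.S) (xs : Fin (σ.ar R) → ℕ) : FPC (σ.sub P) :=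
  if h : R ∈ P then .rel ⟨R, h⟩ xs else ffC

open Classical in
/-- formulas over fewer relation symbols, in the presence of an order -/
noncomputable def restrO (P : Set σ.S) : (R : σ.ord.S) → (Fin (σ.ord.ar R) → ℕ) →
    FPC (σ.sub P).ord
  | none, xs => .rel (σ := (σ.sub P).ord) none xs
  | some R, xs => if h : R ∈ P then .rel (σ := (σ.sub P).ord) (some ⟨R, h⟩) xs else ffC

/-- extension by empty relations -/
def ext {P : Set σ.S} (𝔄 : Str (σ.sub P) A) : Str σ A where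
  rel R t := ∃ h : R ∈ P, 𝔄.rel ⟨R, h⟩ t

lemma eval_restr {P : Set σ.S} (𝔄 : Str (σ.sub P) A) (R : σ.S) (xs : Fin (σ.ar R) → ℕ)
    (v : ℕ → A) (ν : ℕ → ℕ) (β : ℕ → List Bool → List (A ⊕ ℕ) → Prop) :
    (restr P R xs).eval 𝔄 v ν β ↔ (ext 𝔄).rel R (fun i => v (xs i)) := by
  unfold restr
  split_ifs with h
  · show 𝔄.rel ⟨R, h⟩ (fun i => v (xs i)) ↔ ∃ h : R ∈ P, 𝔄.rel ⟨R, h⟩ _
    exact ⟨fun h' => ⟨h, h'⟩, fun ⟨_, h'⟩ => h'⟩
  · rw [eval_ffC]
    exact ⟨False.elim, fun ⟨h', _⟩ => h h'⟩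

open Classical in
lemma eval_restrO {P : Set σ.S} (𝔄 : Str (σ.sub P) A) (r : A → A → Prop) (R : σ.ord.S)
    (xs : Fin (σ.ord.ar R) → ℕ) (v : ℕ → A) (ν : ℕ → ℕ)
    (β : ℕ → List Bool → List (A ⊕ ℕ) → Prop) :
    (restrO P R xs).eval (𝔄.ord r) v ν β ↔ ((ext 𝔄).ord r).rel R (fun i => v (xs i)) := by
  cases R with
  | none => exact Iff.rfl
  | some R =>
    show (if h : R ∈ P then FPC.rel (σ := (σ.sub P).ord) (some ⟨R, h⟩) xs
      else ffC).eval (𝔄.ord r) v ν β ↔ _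
    split_ifs with h
    · show 𝔄.rel ⟨R, h⟩ (fun i => v (xs i)) ↔ ∃ h : R ∈ P, 𝔄.rel ⟨R, h⟩ _
      exact ⟨fun h' => ⟨h, h'⟩, fun ⟨_, h'⟩ => h'⟩
    · rw [eval_ffC]
      exact ⟨False.elim, fun ⟨h', _⟩ => h h'⟩

lemma csp_ext {P : Set σ.S} (𝔅 : Str σ B) (𝔄 : Str (σ.sub P) A) :
    CSP 𝔅 A (ext 𝔄) ↔ CSP (𝔅.sub P) A 𝔄 := by
  constructor
  · rintro ⟨h, hh⟩
    exact ⟨h, fun R t ht => hh R.1 t ⟨R.2, ht⟩⟩
  · rintro ⟨h, hh⟩
    exact ⟨h, fun R t ⟨hR, ht⟩ => hh ⟨R, hR⟩ t ht⟩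

lemma inFPC_sub {P : Set σ.S} (𝔅 : Str σ B) (h : InFPC (CSP 𝔅)) : InFPC (CSP (𝔅.sub P)) := by
  obtain ⟨φ, hφ⟩ := h
  refine ⟨substA (restr P) φ, fun A _ _ 𝔄 v ν => ?_⟩
  rw [eval_substA _ (ext 𝔄) 𝔄 (eval_restr 𝔄), hφ, csp_ext]

lemma inFPCOrd_sub {P : Set σ.S} (𝔅 : Str σ B) (h : InFPCOrd (CSP 𝔅)) :
    InFPCOrd (CSP (𝔅.sub P)) := by
  obtain ⟨φ, hφ⟩ := h
  refine ⟨substA (restrO P) φ, fun A _ _ _ 𝔄 v ν => ?_⟩
  rw [eval_substA _ ((ext 𝔄).ord (fun a b => a < b)) _ (eval_restrO 𝔄 _), hφ, csp_ext]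

/-- **Third theorem.**  If `𝔅` contains the disequality relation, the sets of relations
`P 0, ..., P (m - 1)` glue and each of them is preserved by an injective binary operation, and all
relations of `𝔅` are Horn over their union, then `CSP(𝔅)` is in FP if all `CSP(𝔅|P i, ≠)`
are in FP. -/
theorem inFP_closure (𝔅 : Str σ B) {m : ℕ} (P : Fin m → Set σ.S) (hinj : ∀ i, HasInjOn 𝔅 (P i))
    (hglue : Glues 𝔅 P) (ne : σ.S) (hne : IsNe 𝔅 ne) (hcl : HornDefinable 𝔅 (⋃ i, P i))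
    (h : ∀ i, InFP (CSP (𝔅.sub (insert ne (P i))))) : InFP (CSP 𝔅) := by
  choose cs hcs using hcl
  choose Φ hΦ using h
  have hΦ' : DecF cs ne (DP 𝔅 ne P)
      (bigAnd ((List.finRange m).map (fun i => kill [] (lift (Φ i))))) := by
    intro A _ _ 𝔄 w β E N hN
    simp only [eval_bigAnd, List.mem_map, List.mem_finRange, true_and, forall_exists_index,
      forall_apply_eq_imp_iff]
    refine forall_congr' fun i => ?_
    rw [eval_kill_nil, eval_lift, hΦ i A _ w]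
  refine ⟨finalF cs ne (bigAnd ((List.finRange m).map (fun i => kill [] (lift (Φ i))))),
    fun A _ _ 𝔄 w => ?_⟩
  rw [eval_finalF hΦ' hne, ← horn_correct (Set.Subset.refl _) hcs hne hinj hglue]

end Pool.Agent.Work.MP_8dbde4_lc.TS
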