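import Mathlib

/-!
# Fixed-point logic, fixed-point logic with counting, and constraint satisfaction problems
-/

namespace Pool.Agent.Work.MP_8dbde4_lc.TS

/-- A finite relational signature: finitely many relation symbols, each with an arity. -/
structure Sig where
  S : Type
  fin : Fintype S
  ar : S → ℕ

instance (σ : Sig) : Fintype σ.S := σ.fin

/-- A `σ`-structure with domain `A`. -/
structure Str (σ : Sig) (A : Type) where
  rel : (R : σ.S) → (Fin (σ.ar R) → A) → Prop

/-- Inflationary stages of an operator `F` on relations (a relation is a set of lists):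
the stage `0` is empty, and the stage `n + 1` is the union of the stage `n` and of `F` applied to
the stage `n`. -/
def stage {C : Type} (F : (List C → Prop) → List C → Prop) : ℕ → List C → Prop
  | 0 => fun _ => False
  | n + 1 => fun l => stage F n l ∨ F (stage F n) l

/-- Formulas of (inflationary) fixed-point logic FP.  First-order variables and relation variables
are numbered by `ℕ`.  `ifp X ys φ xs` is the formula `[ifp_{X, ys} φ](xs)`. -/
inductive FP (σ : Sig) : Type
  | rel (R : σ.S) (xs : Fin (σ.ar R) → ℕ) : FP σ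
  | eq (x y : ℕ) : FP σ
  | app (X : ℕ) (xs : List ℕ) : FP σ
  | neg (φ : FP σ) : FP σ
  | and (φ ψ : FP σ) : FP σ
  | ex (x : ℕ) (φ : FP σ) : FP σ
  | ifp (X : ℕ) (ys : List ℕ) (φ : FP σ) (xs : List ℕ) : FP σ

/-- Reassign the variables `ys` to the entries of `l`. -/
def upd {A : Type} (v : ℕ → A) : List ℕ → List A → (ℕ → A)
  | y :: ys, a :: l => upd (Function.update v y a) ys l
  | _, _ => v

/-- Truth of an FP formula in the structure `𝔄`, under an assignment `v` of the first-order
variables and an assignment `β` of the relation variables.  A fixed-point formula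
`[ifp_{X, ys} φ](xs)` (where the variables `ys` are distinct) is true if the tuple of values of
`xs` belongs to some stage of the inflationary induction defined by `φ`. -/
def FP.eval {σ : Sig} {A : Type} (𝔄 : Str σ A) :
    FP σ → (ℕ → A) → (ℕ → List A → Prop) → Prop
  | .rel R xs, v, _ => 𝔄.rel R (fun i => v (xs i))
  | .eq x y, v, _ => v x = v y
  | .app X xs, v, β => β X (xs.map v)
  | .neg φ, v, β => ¬ φ.eval 𝔄 v β
  | .and φ ψ, v, β => φ.eval 𝔄 v β ∧ ψ.eval 𝔄 v β
  | .ex x φ, v, β => ∃ a : A, φ.eval 𝔄 (Function.update v x a) β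
  | .ifp X ys φ xs, v, β => ∃ n : ℕ,
      stage (fun P l => ys.Nodup ∧ l.length = ys.length ∧
        φ.eval 𝔄 (upd v ys l) (Function.update β X P)) n (xs.map v)

/-- Formulas of fixed-point logic with counting FPC.  There are element variables and number
variables, both numbered by `ℕ`; in the mixed lists, `Sum.inl x` is the element variable `x` and
`Sum.inr m` is the number variable `m`.  The relation variables are typed:
the type is the list of the sorts of the arguments, read off from the list of arguments.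
`cnt x φ m` is the formula `#x φ = m`. -/
inductive FPC (σ : Sig) : Type
  | rel (R : σ.S) (xs : Fin (σ.ar R) → ℕ) : FPC σ
  | eq (x y : ℕ) : FPC σ
  | le (m n : ℕ) : FPC σ
  | app (X : ℕ) (ts : List (ℕ ⊕ ℕ)) : FPC σ
  | neg (φ : FPC σ) : FPC σ
  | and (φ ψ : FPC σ) : FPC σ
  | exE (x : ℕ) (φ : FPC σ) : FPC σ
  | exN (m : ℕ) (φ : FPC σ) : FPC σ
  | cnt (x : ℕ) (φ : FPC σ) (m : ℕ) : FPC σ
  | ifp (X : ℕ) (ys : List (ℕ ⊕ ℕ)) (φ : FPC σ) (ts : List (ℕ ⊕ ℕ)) : FPC σ

/-- The sorts of a mixed list (`true` for numbers). -/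
def sorts {C D : Type} (ts : List (C ⊕ D)) : List Bool := ts.map Sum.isRight

/-- Reassign the element variables of `ys`. -/
def updE {A : Type} (v : ℕ → A) : List (ℕ ⊕ ℕ) → List (A ⊕ ℕ) → (ℕ → A)
  | Sum.inl y :: ys, Sum.inl a :: l => updE (Function.update v y a) ys l
  | _ :: ys, _ :: l => updE v ys l
  | _, _ => v

/-- Reassign the number variables of `ys`. -/
def updN {A : Type} (ν : ℕ → ℕ) : List (ℕ ⊕ ℕ) → List (A ⊕ ℕ) → (ℕ → ℕ)
  | Sum.inr y :: ys, Sum.inr k :: l => updN (Function.update ν y k) ys l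
  | _ :: ys, _ :: l => updN ν ys l
  | _, _ => ν

/-- The variables `ys` are distinct, `l` has the same sorts as `ys`, and all its numbers are at
most `N`. -/
def Fits {A : Type} (N : ℕ) (ys : List (ℕ ⊕ ℕ)) (l : List (A ⊕ ℕ)) : Prop :=
  ys.Nodup ∧ sorts l = sorts ys ∧ ∀ k : ℕ, Sum.inr k ∈ l → k ≤ N

/-- Truth of an FPC formula in a finite structure `𝔄`, under assignments `v`, `ν`, `β` of the
element variables, the number variables and the relation variables.  The number sort is
`{0, 1, ..., |A|}`. -/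
def FPC.eval {σ : Sig} {A : Type} (𝔄 : Str σ A) :
    FPC σ → (ℕ → A) → (ℕ → ℕ) → (ℕ → List Bool → List (A ⊕ ℕ) → Prop) → Prop
  | .rel R xs, v, _, _ => 𝔄.rel R (fun i => v (xs i))
  | .eq x y, v, _, _ => v x = v y
  | .le m n, _, ν, _ => ν m ≤ ν n
  | .app X ts, v, ν, β => β X (sorts ts) (ts.map (Sum.map v ν))
  | .neg φ, v, ν, β => ¬ φ.eval 𝔄 v ν β
  | .and φ ψ, v, ν, β => φ.eval 𝔄 v ν β ∧ ψ.eval 𝔄 v ν β
  | .exE x φ, v, ν, β => ∃ a : A, φ.eval 𝔄 (Function.update v x a) ν β
  | .exN m φ, v, ν, β => ∃ k : ℕ, k ≤ Nat.card A ∧ φ.eval 𝔄 v (Function.update ν m k) β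
  | .cnt x φ m, v, ν, β => {a : A | φ.eval 𝔄 (Function.update v x a) ν β}.ncard = ν m
  | .ifp X ys φ ts, v, ν, β => ∃ n : ℕ,
      stage (fun P l => Fits (Nat.card A) ys l ∧
        φ.eval 𝔄 (updE v ys l) (updN ν ys l)
          (Function.update β X (Function.update (β X) (sorts ys) P))) n (ts.map (Sum.map v ν))

/-- A class of `σ`-structures. -/
abbrev Class (σ : Sig) := (A : Type) → Str σ A → Prop

/-- `𝒦` is definable in FP on finite structures: some FP formula is true in
a finite (nonempty) structure exactly if the structure belongs to `𝒦`,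
whatever the values of the free first-order variables are (free relation variables are empty). -/
def InFP {σ : Sig} (𝒦 : Class σ) : Prop :=
  ∃ φ : FP σ, ∀ (A : Type) [Finite A] [Nonempty A] (𝔄 : Str σ A) (v : ℕ → A),
    φ.eval 𝔄 v (fun _ _ => False) ↔ 𝒦 A 𝔄

/-- `𝒦` is definable in FPC on finite structures. -/
def InFPC {σ : Sig} (𝒦 : Class σ) : Prop :=
  ∃ φ : FPC σ, ∀ (A : Type) [Finite A] [Nonempty A] (𝔄 : Str σ A) (v : ℕ → A) (ν : ℕ → ℕ),
    φ.eval 𝔄 v ν (fun _ _ _ => False) ↔ 𝒦 A 𝔄

/-- The signature `σ` with one more binary relation symbol. -/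
def Sig.ord (σ : Sig) : Sig where
  S := Option σ.S
  fin := inferInstance
  ar R := R.elim 2 σ.ar

/-- The expansion of the structure `𝔄` by the binary relation `r`. -/
def Str.ord {σ : Sig} {A : Type} (𝔄 : Str σ A) (r : A → A → Prop) : Str σ.ord A where
  rel
    | none => fun t => r (t (0 : Fin 2)) (t (1 : Fin 2))
    | some R => fun t => 𝔄.rel R t

/-- `𝒦` is definable in FPC on finite linearly ordered structures: some FPC formula, which may use
a linear order of the structure, is true in a finite structure with any linear order exactly if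
the structure belongs to `𝒦`.  (On ordered structures FPC and FP define exactly the classes
decidable in polynomial time, by the Immerman-Vardi theorem.) -/
def InFPCOrd {σ : Sig} (𝒦 : Class σ) : Prop :=
  ∃ φ : FPC σ.ord, ∀ (A : Type) [Finite A] [Nonempty A] [LinearOrder A] (𝔄 : Str σ A)
    (v : ℕ → A) (ν : ℕ → ℕ),
    φ.eval (𝔄.ord (fun a b => a < b)) v ν (fun _ _ _ => False) ↔ 𝒦 A 𝔄

/-- The constraint satisfaction problem of the structure `𝔅`. -/
def CSP {σ : Sig} {B : Type} (𝔅 : Str σ B) : Class σ := fun A 𝔄 =>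
  ∃ h : A → B, ∀ (R : σ.S) (t : Fin (σ.ar R) → A), 𝔄.rel R t → 𝔅.rel R (fun j => h (t j))

/-- `f` is a polymorphism of `𝔅`. -/
def IsPolymorphism {σ : Sig} {B : Type} (𝔅 : Str σ B) {n : ℕ} (f : (Fin n → B) → B) : Prop :=
  ∀ (R : σ.S) (t : Fin n → Fin (σ.ar R) → B), (∀ i, 𝔅.rel R (t i)) →
    𝔅.rel R (fun j => f (fun i => t i j))

/-- `𝔅` has totally symmetric polymorphisms of arbitrarily large arities: the value of the
polymorphism depends only on the set of its arguments. -/
def HasTS {σ : Sig} {B : Type} (𝔅 : Str σ B) : Prop :=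
  ∀ N : ℕ, ∃ n ≥ N, ∃ f : (Fin n → B) → B, IsPolymorphism 𝔅 f ∧
    ∀ x y : Fin n → B, Set.range x = Set.range y → f x = f y

end Pool.Agent.Work.MP_8dbde4_lc.TS
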