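import Pool.Agent.Work.MP_8dbde4_lc.TS.Main

/-!
# FPC and FP for templates with totally symmetric polymorphisms
-/

namespace Pool.Agent.Work.MP_8dbde4_lc.TS

open Pool.Agent.Work.MP_8dbde4_lc.TS.FP

variable {σ : Sig} {A : Type} {𝔄 : Str σ A}

lemma exists_surj {T : Type} [Finite T] [Nonempty T] {n : ℕ} (h : Nat.card T ≤ n) :
    ∃ s : Fin n → T, Function.Surjective s := by
  classical
  let e := Finite.equivFin T
  refine ⟨fun i => if hi : (i : ℕ) < Nat.card T then e.symm ⟨i, hi⟩ else Classical.arbitrary T,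
    fun t => ?_⟩
  refine ⟨⟨e t, (e t).2.trans_le h⟩, ?_⟩
  simp

lemma csp_quot [Finite A] {B : Type} {𝔅 : Str σ B} (hTS : HasTS 𝔅) (Q : OQ 𝔄) :
    CSP 𝔅 A 𝔄 ↔ CSP 𝔅 (Fin Q.q) Q.str := by
  classical
  constructor
  · rintro ⟨h, hh⟩
    have hfin : ∀ R : σ.S, Finite (Fin (σ.ar R) → A) := fun R => inferInstance
    obtain ⟨n, hn, f, hf, hts⟩ := hTS (Nat.card A + ∑ R : σ.S, Nat.card (Fin (σ.ar R) → A))
    have hne : ∀ c : Fin Q.q, Nonempty {a : A // Q.ρ a = c} := fun c =>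
      let ⟨a, ha⟩ := Q.surj c; ⟨⟨a, ha⟩⟩
    have he : ∀ c : Fin Q.q, ∃ s : Fin n → {a : A // Q.ρ a = c}, Function.Surjective s := by
      intro c
      have := hne c
      apply exists_surj
      calc Nat.card {a : A // Q.ρ a = c} ≤ Nat.card A :=
            Nat.card_le_card_of_injective _ Subtype.val_injective
        _ ≤ _ := by omega
    choose e he using he
    refine ⟨fun c => f (fun i => h (e c i).1), ?_⟩
    rintro R u ⟨t₀, ht₀, hu⟩
    have hT : Nonempty {t : Fin (σ.ar R) → A // 𝔄.rel R t ∧ ∀ j, Q.ρ (t j) = u j} :=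
      ⟨⟨t₀, ht₀, hu⟩⟩
    obtain ⟨s, hs⟩ : ∃ s : Fin n → {t : Fin (σ.ar R) → A // 𝔄.rel R t ∧ ∀ j, Q.ρ (t j) = u j},
        Function.Surjective s := by
      apply exists_surj
      calc Nat.card {t : Fin (σ.ar R) → A // 𝔄.rel R t ∧ ∀ j, Q.ρ (t j) = u j}
          ≤ Nat.card (Fin (σ.ar R) → A) := Nat.card_le_card_of_injective _ Subtype.val_injective
        _ ≤ ∑ R : σ.S, Nat.card (Fin (σ.ar R) → A) :=
            Finset.single_le_sum (f := fun R : σ.S => Nat.card (Fin (σ.ar R) → A))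
              (fun _ _ => Nat.zero_le _) (Finset.mem_univ R)
        _ ≤ _ := by omega
    have hpol := hf R (fun i j => h ((s i).1 j)) (fun i => hh R _ (s i).2.1)
    have heq : (fun j => f (fun i => h ((s i).1 j))) = fun j => f (fun i => h (e (u j) i).1) := by
      funext j
      apply hts
      ext b
      simp only [Set.mem_range]
      constructor
      · rintro ⟨i, rfl⟩
        obtain ⟨k, hk⟩ := he (u j) ⟨(s i).1 j, (s i).2.2 j⟩
        exact ⟨k, by rw [hk]⟩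
      · rintro ⟨i, rfl⟩
        obtain ⟨t', h1, h2, h3⟩ := Q.bisim R t₀ ht₀ j (e (u j) i).1
          ((hu j).trans (e (u j) i).2.symm)
        obtain ⟨k, hk⟩ := hs ⟨t', h1, fun j' => (h3 j').trans (hu j')⟩
        exact ⟨k, by rw [hk]; simp only; rw [h2]⟩
    rw [heq] at hpol
    exact hpol
  · rintro ⟨g, hg⟩
    exact ⟨fun a => g (Q.ρ a), fun R t ht => hg R (fun j => Q.ρ (t j)) ⟨t, ht, fun _ => rfl⟩⟩

lemma csp_one {B : Type} {𝔅 : Str σ B} (Q : OQ 𝔄) (hq : Q.q = 1) :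
    CSP 𝔅 (Fin Q.q) Q.str ↔
      ∃ b : B, ∀ R : σ.S, (∃ t, 𝔄.rel R t) → 𝔅.rel R (fun _ => b) := by
  have hsub : ∀ c d : Fin Q.q, c = d := fun c d => Fin.ext (by have := c.2; have := d.2; omega)
  constructor
  · rintro ⟨g, hg⟩
    refine ⟨g ⟨0, by omega⟩, ?_⟩
    rintro R ⟨t, ht⟩
    exact hg R (fun _ => ⟨0, by omega⟩) ⟨t, ht, fun _ => hsub _ _⟩
  · rintro ⟨b, hb⟩
    refine ⟨fun _ => b, ?_⟩
    rintro R u ⟨t, ht, _⟩
    exact hb R ⟨t, ht⟩

/-- `R` is not empty -/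
def neF (R : σ.S) : FP σ := exB tv (σ.ar R) (FP.rel R (fun j => tv j))

lemma eval_neF (R : σ.S) (w : ℕ → A) (γ : ℕ → List A → Prop) :
    (neF R).eval 𝔄 w γ ↔ ∃ t, 𝔄.rel R t := by
  unfold neF
  rw [eval_exB]
  simp only [eval_rel, blk_apply w tv_inj]

open Classical in
/-- exactly the relations of `S` are not empty -/
noncomputable def patF (S : Finset σ.S) : FP σ :=
  bigAnd ((Finset.univ : Finset σ.S).toList.map
    (fun R => if R ∈ S then neF R else FP.neg (neF R)))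

lemma eval_patF (S : Finset σ.S) (w : ℕ → A) (γ : ℕ → List A → Prop) :
    (patF S).eval 𝔄 w γ ↔ ∀ R, (∃ t, 𝔄.rel R t) ↔ R ∈ S := by
  unfold patF
  simp only [eval_bigAnd, List.mem_map, Finset.mem_toList, Finset.mem_univ, true_and,
    forall_exists_index, forall_apply_eq_imp_iff]
  refine forall_congr' fun R => ?_
  split_ifs with h
  · rw [eval_neF]; simp [h]
  · rw [eval_neg, eval_neF]; simp [h]

open Classical in
/-- the formula for structures whose quotient has one element -/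
noncomputable def oneF {B : Type} (𝔅 : Str σ B) : FP σ :=
  bigOr (((Finset.univ : Finset (Finset σ.S)).filter
    (fun S => ∃ b : B, ∀ R ∈ S, 𝔅.rel R (fun _ => b))).toList.map patF)

lemma eval_oneF {B : Type} (𝔅 : Str σ B) (w : ℕ → A) (γ : ℕ → List A → Prop) :
    (oneF 𝔅).eval 𝔄 w γ ↔ ∃ b : B, ∀ R : σ.S, (∃ t, 𝔄.rel R t) → 𝔅.rel R (fun _ => b) := by
  classical
  unfold oneF
  simp only [eval_bigOr, List.mem_map, Finset.mem_toList, Finset.mem_filter, Finset.mem_univ,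
    true_and, exists_exists_and_eq_and, eval_patF]
  constructor
  · rintro ⟨S, ⟨b, hb⟩, hS⟩
    exact ⟨b, fun R hR => hb R ((hS R).1 hR)⟩
  · rintro ⟨b, hb⟩
    refine ⟨Finset.univ.filter (fun R => ∃ t, 𝔄.rel R t), ⟨b, fun R hR => hb R (by simpa using hR)⟩,
      fun R => by simp⟩

/-- Replacement of the atomic formulas. -/
def substA {σ σ' : Sig} (f : (R : σ.S) → (Fin (σ.ar R) → ℕ) → FPC σ') : FPC σ → FPC σ'
  | .rel R xs => f R xs
  | .eq x y => .eq x y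
  | .le m n => .le m n
  | .app X ts => .app X ts
  | .neg φ => .neg (substA f φ)
  | .and φ ψ => .and (substA f φ) (substA f ψ)
  | .exE x φ => .exE x (substA f φ)
  | .exN m φ => .exN m (substA f φ)
  | .cnt x φ m => .cnt x (substA f φ) m
  | .ifp X ys φ ts => .ifp X ys (substA f φ) ts

lemma eval_substA {σ σ' : Sig} {A : Type} (f : (R : σ.S) → (Fin (σ.ar R) → ℕ) → FPC σ')
    (𝔄 : Str σ A) (𝔄' : Str σ' A)
    (hf : ∀ R xs (v : ℕ → A) (ν : ℕ → ℕ) (β : ℕ → List Bool → List (A ⊕ ℕ) → Prop),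
      (f R xs).eval 𝔄' v ν β ↔ 𝔄.rel R (fun i => v (xs i))) :
    ∀ (φ : FPC σ) (v : ℕ → A) (ν : ℕ → ℕ) (β : ℕ → List Bool → List (A ⊕ ℕ) → Prop),
    (substA f φ).eval 𝔄' v ν β ↔ φ.eval 𝔄 v ν β
  | .rel R xs, v, ν, β => hf R xs v ν β
  | .eq x y, v, ν, β => Iff.rfl
  | .le m n, v, ν, β => Iff.rfl
  | .app X ts, v, ν, β => Iff.rfl
  | .neg φ, v, ν, β => not_congr (eval_substA f 𝔄 𝔄' hf φ v ν β)
  | .and φ ψ, v, ν, β =>
    and_congr (eval_substA f 𝔄 𝔄' hf φ v ν β) (eval_substA f 𝔄 𝔄' hf ψ v ν β)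
  | .exE x φ, v, ν, β => exists_congr fun a => eval_substA f 𝔄 𝔄' hf φ _ ν β
  | .exN m φ, v, ν, β => exists_congr fun k => and_congr_right fun _ =>
      eval_substA f 𝔄 𝔄' hf φ v _ β
  | .cnt x φ m, v, ν, β => by
    have : {a : A | (substA f φ).eval 𝔄' (Function.update v x a) ν β} =
        {a : A | φ.eval 𝔄 (Function.update v x a) ν β} := by
      ext a
      exact eval_substA f 𝔄 𝔄' hf φ _ ν β
    show {a : A | (substA f φ).eval 𝔄' (Function.update v x a) ν β}.ncard = ν m ↔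
      {a : A | φ.eval 𝔄 (Function.update v x a) ν β}.ncard = ν m
    rw [this]
  | .ifp X ys φ ts, v, ν, β => by
    show (∃ n, stage _ n _) ↔ (∃ n, stage _ n _)
    have key : (fun (P' : List (A ⊕ ℕ) → Prop) l => Fits (Nat.card A) ys l ∧
        (substA f φ).eval 𝔄' (updE v ys l) (updN ν ys l)
          (Function.update β X (Function.update (β X) (sorts ys) P'))) =
        (fun (P' : List (A ⊕ ℕ) → Prop) l => Fits (Nat.card A) ys l ∧
        φ.eval 𝔄 (updE v ys l) (updN ν ys l)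
          (Function.update β X (Function.update (β X) (sorts ys) P'))) := by
      funext P' l
      rw [eval_substA f 𝔄 𝔄' hf φ]
    exact exists_congr fun n => by rw [key]

lemma InFPC.ord {𝒦 : Class σ} (h : InFPC 𝒦) : InFPCOrd 𝒦 := by
  obtain ⟨φ, hφ⟩ := h
  refine ⟨substA (fun R xs => FPC.rel (σ := σ.ord) (some R) xs) φ, fun A _ _ _ 𝔄 v ν => ?_⟩
  rw [eval_substA _ 𝔄 _ (fun R xs v ν β => Iff.rfl), hφ]

/-- There is an FP formula which says that the ordered quotient belongs to `CSP(𝔅)`. -/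
theorem exists_quotF {B : Type} (𝔅 : Str σ B) (h : InFPCOrd (CSP 𝔅)) :
    ∃ Φ : FP σ, ∀ (A : Type) [Finite A] [Nonempty A] (𝔄 : Str σ A) (w : ℕ → A) (Q : OQ 𝔄),
      Φ.eval 𝔄 w (fun _ _ => False) ↔ CSP 𝔅 (Fin Q.q) Q.str := by
  obtain ⟨φ, hφ⟩ := h
  refine ⟨FP.or (FP.and (FP.neg (FP.ex (sc 0) (FP.ex (sc 1) (lt (sc 0) (sc 1))))) (oneF 𝔅))
    (FP.and (FP.ex (sc 0) (FP.ex (sc 1) (lt (sc 0) (sc 1)))) (T φ)), ?_⟩
  intro A _ _ 𝔄 w Q
  have h10 : sc 0 ≠ sc 1 := by rw [Ne, sc_inj]; omega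
  have hge : (FP.ex (sc 0) (FP.ex (sc 1) (lt (sc 0) (sc 1))) : FP σ).eval 𝔄 w
      (fun _ _ => False) ↔ 2 ≤ Q.q := by
    simp only [eval_ex, ev_lt Q, Function.update_self, Function.update_of_ne h10]
    constructor
    · rintro ⟨a, b, hab⟩
      have := (Q.ρ b).2
      omega
    · intro hq
      obtain ⟨a, ha⟩ := Q.surj ⟨0, by omega⟩
      obtain ⟨b, hb⟩ := Q.surj ⟨1, by omega⟩
      exact ⟨a, b, by rw [ha, hb]; simp⟩
  have hpos : 0 < Q.q := by
    have a : A := Classical.arbitrary A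
    have := (Q.ρ a).2
    omega
  rw [eval_or, eval_and, eval_and, eval_neg, hge]
  rcases Nat.lt_or_ge Q.q 2 with hq | hq
  · have hq1 : Q.q = 1 := by omega
    rw [eval_oneF, csp_one Q hq1]
    constructor
    · rintro (⟨_, h⟩ | ⟨h, _⟩)
      · exact h
      · omega
    · intro h
      exact Or.inl ⟨by omega, h⟩
  · have hne : Nonempty (Fin Q.q) := ⟨⟨0, hpos⟩⟩
    have henv : Env Q (fun x => Q.ρ (w (4 * x))) (fun m => Q.val (w (4 * m + 1)) (w (4 * m + 2)))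
        (fun _ _ _ => False) w (fun _ _ => False) :=
      ⟨fun _ => rfl, fun _ => rfl, fun _ _ _ _ _ _ => Iff.rfl⟩
    rw [← trans hq φ _ _ _ _ _ henv, hφ (Fin Q.q) Q.str]
    constructor
    · rintro (⟨h, _⟩ | ⟨_, h⟩)
      · omega
      · exact h
    · intro h
      exact Or.inr ⟨hq, h⟩

/-- **Main theorem, first version.**  If `𝔅` has totally symmetric polymorphisms of arbitrarily
large arities and `CSP(𝔅)` is in FPC on ordered structures, then `CSP(𝔅)` is in FP. -/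
theorem inFP_of_inFPCOrd {B : Type} (𝔅 : Str σ B) (hTS : HasTS 𝔅) (h : InFPCOrd (CSP 𝔅)) :
    InFP (CSP 𝔅) := by
  obtain ⟨Φ, hΦ⟩ := exists_quotF 𝔅 h
  refine ⟨Φ, fun A _ _ 𝔄 w => ?_⟩
  obtain ⟨Q⟩ := exists_oq 𝔄
  rw [hΦ A 𝔄 w Q, csp_quot hTS Q]

end Pool.Agent.Work.MP_8dbde4_lc.TS
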