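import Pool.Agent.Work.MP_8dbde4_lc.TS.Order

/-!
# Some formulas of fixed-point logic
-/

namespace Pool.Agent.Work.MP_8dbde4_lc.TS

variable {σ : Sig} {A : Type}

namespace FP

def or (φ ψ : FP σ) : FP σ := neg (and (neg φ) (neg ψ))

def ff : FP σ := and (eq 0 0) (neg (eq 0 0))

def tt : FP σ := eq 0 0

def bigOr : List (FP σ) → FP σ
  | [] => ff
  | φ :: l => or φ (bigOr l)

def bigAnd : List (FP σ) → FP σ
  | [] => tt
  | φ :: l => and φ (bigAnd l)

/-- Block of quantifiers over the variables `f 0, ..., f (n - 1)`. -/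
def exB (f : ℕ → ℕ) : ℕ → FP σ → FP σ
  | 0, φ => φ
  | n + 1, φ => exB f n (ex (f n) φ)

variable (𝔄 : Str σ A) (v : ℕ → A) (β : ℕ → List A → Prop)

@[simp] lemma eval_rel (R : σ.S) (xs : Fin (σ.ar R) → ℕ) :
    (rel R xs).eval 𝔄 v β ↔ 𝔄.rel R (fun i => v (xs i)) := Iff.rfl

@[simp] lemma eval_eq (x y : ℕ) : (eq x y : FP σ).eval 𝔄 v β ↔ v x = v y := Iff.rfl

@[simp] lemma eval_app (X : ℕ) (xs : List ℕ) :
    (app X xs : FP σ).eval 𝔄 v β ↔ β X (xs.map v) := Iff.rfl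

@[simp] lemma eval_neg (φ : FP σ) : (neg φ).eval 𝔄 v β ↔ ¬ φ.eval 𝔄 v β := Iff.rfl

@[simp] lemma eval_and (φ ψ : FP σ) :
    (and φ ψ).eval 𝔄 v β ↔ φ.eval 𝔄 v β ∧ ψ.eval 𝔄 v β := Iff.rfl

@[simp] lemma eval_ex (x : ℕ) (φ : FP σ) :
    (ex x φ).eval 𝔄 v β ↔ ∃ a : A, φ.eval 𝔄 (Function.update v x a) β := Iff.rfl

@[simp] lemma eval_or (φ ψ : FP σ) :
    (or φ ψ).eval 𝔄 v β ↔ φ.eval 𝔄 v β ∨ ψ.eval 𝔄 v β := by
  simp only [or, eval_neg, eval_and]
  tauto

@[simp] lemma eval_ff : (ff : FP σ).eval 𝔄 v β ↔ False := by simp [ff]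

@[simp] lemma eval_tt : (tt : FP σ).eval 𝔄 v β ↔ True := by simp [tt]

@[simp] lemma eval_bigOr (l : List (FP σ)) :
    (bigOr l).eval 𝔄 v β ↔ ∃ φ ∈ l, φ.eval 𝔄 v β := by
  induction l with
  | nil => simp [bigOr]
  | cons φ l ih => simp [bigOr, ih]

@[simp] lemma eval_bigAnd (l : List (FP σ)) :
    (bigAnd l).eval 𝔄 v β ↔ ∀ φ ∈ l, φ.eval 𝔄 v β := by
  induction l with
  | nil => simp [bigAnd]
  | cons φ l ih => simp [bigAnd, ih]

end FP

open Pool.Agent.Work.MP_8dbde4_lc.TS.FP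

/-- Reassign the variables `f 0, ..., f (n - 1)`. -/
def blk (v : ℕ → A) (f : ℕ → ℕ) : (n : ℕ) → (Fin n → A) → (ℕ → A)
  | 0, _ => v
  | n + 1, c => Function.update (blk v f n (fun i => c i.castSucc)) (f n) (c (Fin.last n))

lemma blk_of_ne (v : ℕ → A) (f : ℕ → ℕ) (x : ℕ) (hx : ∀ j, f j ≠ x) :
    ∀ (n : ℕ) (c : Fin n → A), blk v f n c x = v x
  | 0, _ => rfl
  | n + 1, c => by
    rw [blk, Function.update_of_ne (hx n).symm]
    exact blk_of_ne v f x hx n _

lemma blk_apply (v : ℕ → A) {f : ℕ → ℕ} (hf : Function.Injective f) :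
    ∀ (n : ℕ) (c : Fin n → A) (j : Fin n), blk v f n c (f j) = c j
  | 0, _, j => j.elim0
  | n + 1, c, j => by
    rw [blk]
    refine Fin.lastCases ?_ (fun i => ?_) j
    · simp
    · rw [Function.update_of_ne]
      · exact blk_apply v hf n _ i
      · intro h
        have h1 := hf h
        have h2 := i.2
        simp at h1
        omega

lemma FP.eval_exB (𝔄 : Str σ A) (f : ℕ → ℕ) (β : ℕ → List A → Prop) (v : ℕ → A) :
    ∀ (n : ℕ) (φ : FP σ), (exB f n φ).eval 𝔄 v β ↔ ∃ c : Fin n → A, φ.eval 𝔄 (blk v f n c) β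
  | 0, φ => by
    simp only [exB, blk]
    exact ⟨fun h => ⟨Fin.elim0, h⟩, fun ⟨_, h⟩ => h⟩
  | n + 1, φ => by
    rw [exB, FP.eval_exB 𝔄 f β v n]
    constructor
    · rintro ⟨c, a, h⟩
      refine ⟨Fin.snoc c a, ?_⟩
      rw [blk]
      simpa using h
    · rintro ⟨c, h⟩
      refine ⟨fun i => c i.castSucc, c (Fin.last n), ?_⟩
      rw [blk] at h
      exact h

/-- Scratch variables. -/
def sc (j : ℕ) : ℕ := 4 * j + 3

/-- blocks of scratch variables -/
def tv (j : ℕ) : ℕ := sc (3 * j + 10)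
def cv (j : ℕ) : ℕ := sc (3 * j + 11)
def dv (j : ℕ) : ℕ := sc (3 * j + 12)

lemma sc_inj {i j : ℕ} : sc i = sc j ↔ i = j := by unfold sc; omega
lemma tv_inj : Function.Injective tv := fun i j h => by unfold tv sc at h; omega
lemma cv_inj : Function.Injective cv := fun i j h => by unfold cv sc at h; omega
lemma dv_inj : Function.Injective dv := fun i j h => by unfold dv sc at h; omega
lemma tv_ne_cv (i j : ℕ) : tv i ≠ cv j := by unfold tv cv sc; omega
lemma tv_ne_dv (i j : ℕ) : tv i ≠ dv j := by unfold tv dv sc; omega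
lemma cv_ne_dv (i j : ℕ) : cv i ≠ dv j := by unfold cv dv sc; omega
lemma tv_ne_sc (i j : ℕ) (h : j < 10) : tv i ≠ sc j := by unfold tv sc; omega
lemma cv_ne_sc (i j : ℕ) (h : j < 10) : cv i ≠ sc j := by unfold cv sc; omega
lemma dv_ne_sc (i j : ℕ) (h : j < 10) : dv i ≠ sc j := by unfold dv sc; omega

namespace FP

/-- incomparability with respect to the relation variable `1` -/
def eqvF (x y : ℕ) : FP σ := and (neg (app 1 [x, y])) (neg (app 1 [y, x]))

def hasF (R : σ.S) (i : Fin (σ.ar R)) (x : ℕ) (b : ℕ → ℕ) : FP σ :=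
  exB tv (σ.ar R) (and (and (rel R (fun j => tv j)) (eq (tv i) x))
    (bigAnd ((List.finRange (σ.ar R)).map (fun j : Fin (σ.ar R) => eqvF (tv j) (b j)))))

def lexF (n : ℕ) : FP σ :=
  bigOr ((List.finRange n).map (fun j : Fin n => and (app 1 [dv j, cv j])
    (bigAnd (((List.finRange n).filter (fun i : Fin n => i < j)).map
      (fun i : Fin n => eqvF (dv i) (cv i))))))

def sigF (R : σ.S) (i : Fin (σ.ar R)) (x y : ℕ) : FP σ :=
  exB cv (σ.ar R) (and (and (hasF R i y cv) (neg (hasF R i x cv)))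
    (neg (exB dv (σ.ar R) (and (and (hasF R i x dv) (neg (hasF R i y dv))) (neg (lexF (σ.ar R)))))))

def cF (x y : ℕ) : List (Σ R : σ.S, Fin (σ.ar R)) → FP σ
  | [] => ff
  | p :: ps => or (sigF p.1 p.2 x y)
      (and (neg (sigF p.1 p.2 x y)) (and (neg (sigF p.1 p.2 y x)) (cF x y ps)))

noncomputable def refF (σ : Sig) : FP σ := and (neg (app 1 [sc 1, sc 0])) (cF (sc 0) (sc 1) (pos σ))

/-- The canonical order. -/
noncomputable def lt (x y : ℕ) : FP σ := ifp 1 [sc 0, sc 1] (refF σ) [x, y]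

variable (𝔄 : Str σ A) (v : ℕ → A) (β : ℕ → List A → Prop)

lemma eval_eqvF (x y : ℕ) :
    (eqvF x y : FP σ).eval 𝔄 v β ↔ Eqv (fun a b => β 1 [a, b]) (v x) (v y) := by
  simp [eqvF, Eqv]

lemma eval_hasF (R : σ.S) (i : Fin (σ.ar R)) (x : ℕ) (b : ℕ → ℕ)
    (hx : ∀ j, tv j ≠ x) (hb : ∀ i j, tv i ≠ b j) :
    (hasF R i x b).eval 𝔄 v β ↔ Has 𝔄 (fun a b => β 1 [a, b]) R i (v x) (fun j => v (b j)) := by
  unfold hasF Has
  rw [eval_exB]
  refine exists_congr fun t => ?_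
  simp only [eval_and, eval_rel, eval_eq, eval_bigAnd, List.mem_map, List.mem_finRange,
    true_and, forall_exists_index, forall_apply_eq_imp_iff, eval_eqvF, blk_apply v tv_inj,
    blk_of_ne v tv x hx]
  refine and_congr_right fun _ => forall_congr' fun j => ?_
  rw [blk_of_ne v tv (b j) (fun k => hb k j)]

lemma eval_lexF (n : ℕ) :
    (lexF n : FP σ).eval 𝔄 v β ↔ LexL (fun a b => β 1 [a, b]) (fun j : Fin n => v (dv j))
      (fun j : Fin n => v (cv j)) := by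
  unfold lexF LexL
  simp only [eval_bigOr, List.mem_map, List.mem_finRange, true_and, exists_exists_eq_and,
    eval_and, eval_app, List.map_cons, List.map_nil, eval_bigAnd, List.mem_filter,
    decide_eq_true_eq, forall_exists_index, and_imp, forall_apply_eq_imp_iff₂, eval_eqvF]

lemma eval_sigF (R : σ.S) (i : Fin (σ.ar R)) (x y : ℕ)
    (hx : ∃ j < 10, x = sc j) (hy : ∃ j < 10, y = sc j) :
    (sigF R i x y).eval 𝔄 v β ↔ SigLess 𝔄 (fun a b => β 1 [a, b]) R i (v x) (v y) := by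
  obtain ⟨k, hk, rfl⟩ := hx
  obtain ⟨l, hl, rfl⟩ := hy
  unfold sigF SigLess
  rw [eval_exB]
  refine exists_congr fun c => ?_
  rw [eval_and, eval_and, eval_neg,
    eval_hasF _ _ _ _ _ _ _ (fun j => tv_ne_sc j l hl) tv_ne_cv,
    eval_hasF _ _ _ _ _ _ _ (fun j => tv_ne_sc j k hk) tv_ne_cv, eval_neg, eval_exB]
  simp only [blk_apply v cv_inj, blk_of_ne v cv _ (fun j => cv_ne_sc j k hk),
    blk_of_ne v cv _ (fun j => cv_ne_sc j l hl)]
  refine and_congr_right fun _ => ?_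
  rw [not_exists]
  refine forall_congr' fun d => ?_
  rw [eval_and, eval_and, eval_neg, eval_neg,
    eval_hasF _ _ _ _ _ _ _ (fun j => tv_ne_sc j l hl) tv_ne_dv,
    eval_hasF _ _ _ _ _ _ _ (fun j => tv_ne_sc j k hk) tv_ne_dv, eval_lexF]
  simp only [blk_apply _ dv_inj, blk_of_ne _ dv _ (fun j => dv_ne_sc j k hk),
    blk_of_ne _ dv _ (fun j => dv_ne_sc j l hl), blk_of_ne v cv _ (fun j => cv_ne_sc j k hk),
    blk_of_ne v cv _ (fun j => cv_ne_sc j l hl), blk_of_ne _ dv _ (fun i => (cv_ne_dv _ i).symm),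
    blk_apply v cv_inj]
  tauto

lemma eval_cF (x y : ℕ) (hx : ∃ j < 10, x = sc j) (hy : ∃ j < 10, y = sc j) :
    ∀ ps : List (Σ R : σ.S, Fin (σ.ar R)),
    (cF x y ps).eval 𝔄 v β ↔ CLess 𝔄 (fun a b => β 1 [a, b]) ps (v x) (v y)
  | [] => by simp [cF, CLess]
  | p :: ps => by
    rw [cF, CLess, eval_or, eval_and, eval_and, eval_neg, eval_neg, eval_sigF _ _ _ _ _ _ _ hx hy,
      eval_sigF _ _ _ _ _ _ _ hy hx, eval_cF x y hx hy ps]

lemma eval_lt (x y : ℕ) :
    (lt x y : FP σ).eval 𝔄 v β ↔ ∃ n, Lst 𝔄 n (v x) (v y) := by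
  have key : ∀ (n : ℕ) (a b : A),
      stage (fun P l => [sc 0, sc 1].Nodup ∧ l.length = [sc 0, sc 1].length ∧
        (refF σ).eval 𝔄 (upd v [sc 0, sc 1] l) (Function.update β 1 P)) n [a, b] ↔
      Lst 𝔄 n a b := by
    intro n
    induction n with
    | zero => intro a b; simp [stage, Lst]
    | succ n ih =>
      intro a b
      show (stage _ n [a, b] ∨ (_ ∧ _ ∧ _)) ↔
        (Lst 𝔄 n a b ∨ (¬ Lst 𝔄 n b a ∧ CLess 𝔄 (Lst 𝔄 n) (pos σ) a b))
      refine or_congr (ih a b) ?_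
      generalize stage (fun P l => [sc 0, sc 1].Nodup ∧ l.length = [sc 0, sc 1].length ∧
        (refF σ).eval 𝔄 (upd v [sc 0, sc 1] l) (Function.update β 1 P)) n = S at ih ⊢
      have h10 : sc 1 ≠ sc 0 := by rw [Ne, sc_inj]; omega
      have hnd : [sc 0, sc 1].Nodup := by simp [h10.symm]
      have hfun : (fun a b => S [a, b]) = Lst 𝔄 n := by
        funext a b
        exact propext (ih a b)
      simp only [refF, eval_and, eval_neg, eval_app, List.map_cons, List.map_nil,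
        eval_cF _ _ _ _ _ ⟨0, by omega, rfl⟩ ⟨1, by omega, rfl⟩, upd, Function.update_self,
        Function.update_of_ne h10.symm, List.length_cons, List.length_nil, true_and, hfun, hnd]
      rw [← ih]
  show (∃ n, stage _ n [v x, v y]) ↔ _
  exact exists_congr fun n => key n _ _

end FP

end Pool.Agent.Work.MP_8dbde4_lc.TS
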