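import Pool.Agent.Work.MP_8dbde4_lc.TS.Defs

/-!
# Horn closures of totally symmetric languages
-/

namespace Pool.Agent.Work.MP_8dbde4_lc.TS

/-- `f` preserves the relation `R` of `𝔅`. -/
def Preserves {σ : Sig} {B : Type} (𝔅 : Str σ B) {n : ℕ} (f : (Fin n → B) → B) (R : σ.S) : Prop :=
  ∀ t : Fin n → Fin (σ.ar R) → B, (∀ i, 𝔅.rel R (t i)) → 𝔅.rel R (fun j => f (fun i => t i j))

/-- The relations in `τ` are preserved by idempotent totally symmetric operations of arbitrarily
large arities. -/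
def HasTSOn {σ : Sig} {B : Type} (𝔅 : Str σ B) (τ : Set σ.S) : Prop :=
  ∀ N : ℕ, ∃ n ≥ N, ∃ f : (Fin n → B) → B, (∀ R ∈ τ, Preserves 𝔅 f R) ∧
    (∀ x y : Fin n → B, Set.range x = Set.range y → f x = f y) ∧ ∀ b : B, f (fun _ => b) = b

/-- The relations in `τ` are preserved by an injective binary operation. -/
def HasInjOn {σ : Sig} {B : Type} (𝔅 : Str σ B) (τ : Set σ.S) : Prop :=
  ∃ g : (Fin 2 → B) → B, Function.Injective g ∧ ∀ R ∈ τ, Preserves 𝔅 g R

/-- Conclusion of a Horn clause with the variables `0, ..., n - 1`: false, an equality, or an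
atomic formula with a relation symbol of `τ`. -/
inductive Concl (σ : Sig) (τ : Set σ.S) (n : ℕ) : Type
  | bot : Concl σ τ n
  | eq (i j : Fin n) : Concl σ τ n
  | rel (S : σ.S) (hS : S ∈ τ) (f : Fin (σ.ar S) → Fin n) : Concl σ τ n

/-- A Horn clause over `τ`: the premise is a conjunction of equalities of variables. -/
structure Clause (σ : Sig) (τ : Set σ.S) (n : ℕ) where
  prem : List (Fin n × Fin n)
  concl : Concl σ τ n

/-- Truth of a conclusion. -/
def Concl.Holds {σ : Sig} {τ : Set σ.S} {n : ℕ} {B : Type} (𝔅 : Str σ B) (t : Fin n → B) :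
    Concl σ τ n → Prop
  | .bot => False
  | .eq i j => t i = t j
  | .rel S _ f => 𝔅.rel S (fun k => t (f k))

/-- Truth of a Horn clause. -/
def Clause.Holds {σ : Sig} {τ : Set σ.S} {n : ℕ} {B : Type} (𝔅 : Str σ B) (t : Fin n → B)
    (c : Clause σ τ n) : Prop :=
  (∀ p ∈ c.prem, t p.1 = t p.2) → c.concl.Holds 𝔅 t

/-- The relation `ne` of `𝔅` is the disequality relation. -/
def IsNe {σ : Sig} {B : Type} (𝔅 : Str σ B) (ne : σ.S) : Prop :=
  σ.ar ne = 2 ∧ ∀ t : Fin (σ.ar ne) → B, 𝔅.rel ne t ↔ ¬ ∀ i j, t i = t j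

/-- The signature with the relation symbols in `P` only. -/
noncomputable def Sig.sub (σ : Sig) (P : Set σ.S) : Sig where
  S := {R : σ.S // R ∈ P}
  fin := Fintype.ofFinite _
  ar R := σ.ar R.1

/-- The structure with the relations in `P` only. -/
def Str.sub {σ : Sig} {A : Type} (𝔄 : Str σ A) (P : Set σ.S) : Str (σ.sub P) A where
  rel R t := 𝔄.rel R.1 t

/-- Every relation of `𝔅` is defined by a conjunction of Horn clauses over `τ`. -/
def HornDefinable {σ : Sig} {B : Type} (𝔅 : Str σ B) (τ : Set σ.S) : Prop :=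
  ∀ R : σ.S, ∃ cs : List (Clause σ τ (σ.ar R)), ∀ t : Fin (σ.ar R) → B,
    𝔅.rel R t ↔ ∀ c ∈ cs, c.Holds 𝔅 t

/-- The structure `𝔄` has an injective map to `𝔅` which preserves the relations in `P`. -/
def InjHom {σ : Sig} {B : Type} (𝔅 : Str σ B) (P : Set σ.S) {A : Type} (𝔄 : Str σ A) : Prop :=
  ∃ h : A → B, Function.Injective h ∧ ∀ R ∈ P, ∀ t : Fin (σ.ar R) → A, 𝔄.rel R t →
    𝔅.rel R (fun j => h (t j))

/-- The sets of relation symbols `P 0, ..., P (m - 1)` glue in `𝔅`: if a finite structure has, for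
every `i`, an injective map to `𝔅` which preserves the relations in `P i`, then it has one which
preserves the relations in all the `P i`.  For instance this holds for the generic combination
of structures without algebraicity, and trivially for `m = 1`. -/
def Glues {σ : Sig} {B : Type} (𝔅 : Str σ B) {m : ℕ} (P : Fin m → Set σ.S) : Prop :=
  ∀ (A : Type) [Finite A] (𝔄 : Str σ A), (∀ i, InjHom 𝔅 (P i) 𝔄) → InjHom 𝔅 (⋃ i, P i) 𝔄

/-- `𝔅` is a Horn closure: the disequality relation is a relation of `𝔅`, and there is a set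
`τ` of relations of `𝔅`, preserved by idempotent totally symmetric operations of arbitrarily large
arities and by an injective binary operation, such that every relation of `𝔅` is defined by a
conjunction of Horn clauses over `τ`. -/
def IsHornTS {σ : Sig} {B : Type} (𝔅 : Str σ B) : Prop :=
  ∃ τ : Set σ.S, HasTSOn 𝔅 τ ∧ HasInjOn 𝔅 τ ∧ (∃ ne : σ.S, ne ∉ τ ∧ IsNe 𝔅 ne) ∧
    HornDefinable 𝔅 τ

end Pool.Agent.Work.MP_8dbde4_lc.TS
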