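import Pool.Agent.Work.MP_8dbde4_lc.TS.Final
import Pool.Agent.Work.MP_8dbde4_lc.TS.HornDefs

/-!
# Horn closures: the algorithm (semantic part)
-/

namespace Pool.Agent.Work.MP_8dbde4_lc.TS

variable {σ : Sig} {A : Type} {B : Type}

/-- If only elements which are alone in their class occur in the relations outside `τ`, then
the ordered quotient is equivalent to the structure. -/
lemma csp_quot' [Finite A] {𝔄 : Str σ A} {𝔅 : Str σ B} {τ : Set σ.S} (hTS : HasTSOn 𝔅 τ)
    (Q : OQ 𝔄) (hs : ∀ R, R ∉ τ → ∀ t, 𝔄.rel R t → ∀ j a, Q.ρ a = Q.ρ (t j) → a = t j) :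
    CSP 𝔅 A 𝔄 ↔ CSP 𝔅 (Fin Q.q) Q.str := by
  classical
  constructor
  · rintro ⟨h, hh⟩
    have hfin : ∀ R : σ.S, Finite (Fin (σ.ar R) → A) := fun R => inferInstance
    obtain ⟨n, hn, f, hf, hts, hid⟩ :=
      hTS (Nat.card A + ∑ R : σ.S, Nat.card (Fin (σ.ar R) → A))
    have hne : ∀ c : Fin Q.q, Nonempty {a : A // Q.ρ a = c} := fun c =>
      let ⟨a, ha⟩ := Q.surj c; ⟨⟨a, ha⟩⟩
    have he : ∀ c : Fin Q.q, ∃ s : Fin n → {a : A // Q.ρ a = c}, Function.Surjective s := by
      intro c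
      have := hne c
      apply exists_surj
      calc Nat.card {a : A // Q.ρ a = c} ≤ Nat.card A :=
            Nat.card_le_card_of_injective _ Subtype.val_injective
        _ ≤ _ := by omega
    choose e he using he
    refine ⟨fun c => f (fun i => h (e c i).1), ?_⟩
    rintro R u ⟨t₀, ht₀, hu⟩
    by_cases hR : R ∈ τ
    · have hT : Nonempty {t : Fin (σ.ar R) → A // 𝔄.rel R t ∧ ∀ j, Q.ρ (t j) = u j} :=
        ⟨⟨t₀, ht₀, hu⟩⟩
      obtain ⟨s, hs⟩ : ∃ s : Fin n → {t : Fin (σ.ar R) → A // 𝔄.rel R t ∧ ∀ j, Q.ρ (t j) = u j},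
          Function.Surjective s := by
        apply exists_surj
        calc Nat.card {t : Fin (σ.ar R) → A // 𝔄.rel R t ∧ ∀ j, Q.ρ (t j) = u j}
            ≤ Nat.card (Fin (σ.ar R) → A) := Nat.card_le_card_of_injective _ Subtype.val_injective
          _ ≤ ∑ R : σ.S, Nat.card (Fin (σ.ar R) → A) :=
              Finset.single_le_sum (f := fun R : σ.S => Nat.card (Fin (σ.ar R) → A))
                (fun _ _ => Nat.zero_le _) (Finset.mem_univ R)
          _ ≤ _ := by omega
      have hpol := hf R hR (fun i j => h ((s i).1 j)) (fun i => hh R _ (s i).2.1)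
      have heq : (fun j => f (fun i => h ((s i).1 j))) =
          fun j => f (fun i => h (e (u j) i).1) := by
        funext j
        apply hts
        ext b
        simp only [Set.mem_range]
        constructor
        · rintro ⟨i, rfl⟩
          obtain ⟨k, hk⟩ := he (u j) ⟨(s i).1 j, (s i).2.2 j⟩
          exact ⟨k, by rw [hk]⟩
        · rintro ⟨i, rfl⟩
          obtain ⟨t', h1, h2, h3⟩ := Q.bisim R t₀ ht₀ j (e (u j) i).1
            ((hu j).trans (e (u j) i).2.symm)
          obtain ⟨k, hk⟩ := hs ⟨t', h1, fun j' => (h3 j').trans (hu j')⟩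
          exact ⟨k, by rw [hk]; simp only; rw [h2]⟩
      rw [heq] at hpol
      exact hpol
    · have heq : (fun j => f (fun i => h (e (u j) i).1)) = fun j => h (t₀ j) := by
        funext j
        have : (fun i => h (e (u j) i).1) = fun _ => h (t₀ j) := by
          funext i
          rw [hs R hR t₀ ht₀ j (e (u j) i).1 ((e (u j) i).2.trans (hu j).symm)]
        rw [this, hid]
      rw [heq]
      exact hh R t₀ ht₀
  · rintro ⟨g, hg⟩
    exact ⟨fun a => g (Q.ρ a), fun R t ht => hg R (fun j => Q.ρ (t j)) ⟨t, ht, fun _ => rfl⟩⟩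

section alg

variable {τ : Set σ.S} (cs : (R : σ.S) → List (Clause σ τ (σ.ar R))) (ne : σ.S)
  (𝔄 : Str σ A) (𝒟 : Class σ)

/-- reflexive closure -/
def Rf (E : A → A → Prop) (a b : A) : Prop := a = b ∨ E a b

/-- The clause `c` of the constraint `R d` fires. -/
def Fires (E : A → A → Prop) (R : σ.S) (c : Clause σ τ (σ.ar R)) (d : Fin (σ.ar R) → A) : Prop :=
  𝔄.rel R d ∧ ∀ p ∈ c.prem, Rf E (d p.1) (d p.2)

def FRel (E : A → A → Prop) (S : σ.S) (t : Fin (σ.ar S) → A) : Prop :=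
  ∃ R, ∃ c ∈ cs R, ∃ d, Fires 𝔄 E R c d ∧
    ∃ hS f, c.concl = Concl.rel S hS f ∧ ∀ k, Rf E (d (f k)) (t k)

def FEq (E : A → A → Prop) (a b : A) : Prop :=
  ∃ R, ∃ c ∈ cs R, ∃ d, Fires 𝔄 E R c d ∧ ∃ i j, c.concl = Concl.eq i j ∧ d i = a ∧ d j = b

def FBot (E : A → A → Prop) : Prop :=
  ∃ R, ∃ c ∈ cs R, ∃ d, Fires 𝔄 E R c d ∧ c.concl = Concl.bot

/-- The structure with the current facts. -/
def cur (E N : A → A → Prop) : Str σ A where
  rel S t := FRel cs 𝔄 E S t ∨
    (S = ne ∧ ∃ a b, N a b ∧ ∀ j : Fin (σ.ar S), t j = if (j : ℕ) = 0 then a else b)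

/-- One step of the derivation of equalities. -/
def step (E : A → A → Prop) (a b : A) : Prop :=
  (∃ c, Rf E a c ∧ Rf E c b) ∨ E b a ∨ FEq cs 𝔄 E a b ∨
    ¬ 𝒟 A (cur cs ne 𝔄 E (fun x y => x = a ∧ y = b))

def Est : ℕ → A → A → Prop
  | 0 => fun _ _ => False
  | n + 1 => fun a b => Est n a b ∨ step cs ne 𝔄 𝒟 (Est n) a b

def Einf (a b : A) : Prop := ∃ n, Est cs ne 𝔄 𝒟 n a b

variable {cs ne 𝔄 𝒟}

lemma est_mono {m n : ℕ} (h : m ≤ n) {a b : A} (hab : Est cs ne 𝔄 𝒟 m a b) :
    Est cs ne 𝔄 𝒟 n a b := by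
  induction h with
  | refl => exact hab
  | step _ ih => exact Or.inl ih

lemma est_stable [Finite A] : ∃ n, Est cs ne 𝔄 𝒟 n = Einf cs ne 𝔄 𝒟 := by
  have hmono : Monotone (fun n => {p : A × A | Est cs ne 𝔄 𝒟 n p.1 p.2}) := by
    intro m n h p hp
    exact est_mono h hp
  obtain ⟨n, hn⟩ := WellFoundedGT.monotone_chain_condition
    (⟨fun n => {p : A × A | Est cs ne 𝔄 𝒟 n p.1 p.2}, hmono⟩ : ℕ →o Set (A × A))
  refine ⟨n, ?_⟩
  funext a b
  apply propext
  constructor
  · intro h; exact ⟨n, h⟩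
  · rintro ⟨m, h⟩
    rcases le_total n m with hm | hm
    · have := hn m hm
      have h2 : (a, b) ∈ {p : A × A | Est cs ne 𝔄 𝒟 m p.1 p.2} := h
      have h3 : {p : A × A | Est cs ne 𝔄 𝒟 n p.1 p.2} = {p : A × A | Est cs ne 𝔄 𝒟 m p.1 p.2} :=
        this
      rw [← h3] at h2
      exact h2
    · exact est_mono hm h

section sound

variable {𝔅 : Str σ B} (hcs : ∀ R (t : Fin (σ.ar R) → B), 𝔅.rel R t ↔ ∀ c ∈ cs R, c.Holds 𝔅 t)
  (hne : IsNe 𝔅 ne) {h : A → B}
  (hh : ∀ (R : σ.S) (t : Fin (σ.ar R) → A), 𝔄.rel R t → 𝔅.rel R (fun j => h (t j)))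

include hcs hh

lemma fires_holds {E : A → A → Prop} (hE : ∀ a b, E a b → h a = h b) {R : σ.S}
    {c : Clause σ τ (σ.ar R)} (hc : c ∈ cs R) {d : Fin (σ.ar R) → A}
    (hf : Fires 𝔄 E R c d) : c.concl.Holds 𝔅 (fun j => h (d j)) := by
  have h1 := (hcs R _).1 (hh R d hf.1) c hc
  apply h1
  intro p hp
  rcases hf.2 p hp with h2 | h2
  · exact congrArg h h2
  · exact hE _ _ h2

lemma frel_holds {E : A → A → Prop} (hE : ∀ a b, E a b → h a = h b) {S : σ.S}
    {t : Fin (σ.ar S) → A} (hf : FRel cs 𝔄 E S t) : 𝔅.rel S (fun j => h (t j)) := by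
  obtain ⟨R, c, hc, d, h1, hS, f, h2, h3⟩ := hf
  have h4 := fires_holds hcs hh hE hc h1
  rw [h2] at h4
  have h5 : (fun j => h (t j)) = fun k => h (d (f k)) := by
    funext k
    rcases h3 k with h6 | h6
    · rw [h6]
    · exact (hE _ _ h6).symm
  rw [h5]
  exact h4

lemma step_sound {E : A → A → Prop} (hne : IsNe 𝔅 ne) (hD : ∀ 𝔄' : Str σ A, CSP 𝔅 A 𝔄' → 𝒟 A 𝔄')
    (hE : ∀ a b, E a b → h a = h b) {a b : A}
    (hs : step cs ne 𝔄 𝒟 E a b) : h a = h b := by
  have hrf : ∀ a b, Rf E a b → h a = h b := by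
    rintro a b (h1 | h1)
    · rw [h1]
    · exact hE a b h1
  rcases hs with ⟨c, h1, h2⟩ | h1 | h1 | h1
  · exact (hrf _ _ h1).trans (hrf _ _ h2)
  · exact (hE _ _ h1).symm
  · obtain ⟨R, c, hc, d, h2, i, j, h3, rfl, rfl⟩ := h1
    have h4 := fires_holds hcs hh hE hc h2
    rw [h3] at h4
    exact h4
  · by_contra hab
    apply h1
    apply hD
    refine ⟨h, ?_⟩
    rintro S t (h2 | ⟨rfl, x, y, ⟨rfl, rfl⟩, h3⟩)
    · exact frel_holds hcs hh hE h2
    · rw [hne.2]
      intro h4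
      apply hab
      have h5 := h4 ⟨0, by rw [hne.1]; omega⟩ ⟨1, by rw [hne.1]; omega⟩
      rw [h3, h3] at h5
      simpa using h5

lemma est_sound (hne : IsNe 𝔅 ne) (hD : ∀ 𝔄' : Str σ A, CSP 𝔅 A 𝔄' → 𝒟 A 𝔄') :
    ∀ (n : ℕ) (a b : A), Est cs ne 𝔄 𝒟 n a b → h a = h b
  | 0, _, _, h1 => h1.elim
  | n + 1, a, b, h1 => by
    rcases h1 with h1 | h1
    · exact est_sound hne hD n a b h1
    · exact step_sound hcs hh hne hD (est_sound hne hD n) h1

end sound

/-- The necessary condition which is tested: for every `i`, the reduct to the relations in `P i` and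
the disequality relation is satisfiable. -/
def DP (𝔅 : Str σ B) (ne : σ.S) {m : ℕ} (P : Fin m → Set σ.S) : Class σ := fun A 𝔄 =>
  ∀ i, CSP (𝔅.sub (insert ne (P i))) A (𝔄.sub (insert ne (P i)))

lemma dp_of_csp {𝔅 : Str σ B} {m : ℕ} {P : Fin m → Set σ.S} (𝔄' : Str σ A)
    (h : CSP 𝔅 A 𝔄') : DP 𝔅 ne P A 𝔄' := by
  obtain ⟨u, hu⟩ := h
  exact fun i => ⟨u, fun R t ht => hu R.1 t ht⟩

/-- The equivalence is correct: `𝔄` maps to `𝔅` iff the final facts are consistent. -/
theorem horn_correct [Finite A] {𝔅 : Str σ B} {m : ℕ} {P : Fin m → Set σ.S}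
    (hP : τ ⊆ ⋃ i, P i)
    (hcs : ∀ R (t : Fin (σ.ar R) → B), 𝔅.rel R t ↔ ∀ c ∈ cs R, c.Holds 𝔅 t)
    (hne : IsNe 𝔅 ne) (hinj : ∀ i, HasInjOn 𝔅 (P i)) (hglue : Glues 𝔅 P) :
    CSP 𝔅 A 𝔄 ↔ DP 𝔅 ne P A (cur cs ne 𝔄 (Einf cs ne 𝔄 (DP 𝔅 ne P)) (fun _ _ => False)) ∧
      ¬ FBot cs 𝔄 (Einf cs ne 𝔄 (DP 𝔅 ne P)) := by
  classical
  constructor
  · rintro ⟨h, hh⟩
    have hE : ∀ a b, Einf cs ne 𝔄 (DP 𝔅 ne P) a b → h a = h b := by
      rintro a b ⟨n, hn⟩
      exact est_sound hcs hh hne dp_of_csp n a b hn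
    refine ⟨dp_of_csp _ ⟨h, ?_⟩, ?_⟩
    · rintro S t (h2 | ⟨_, x, y, h3, _⟩)
      · exact frel_holds hcs hh hE h2
      · exact h3.elim
    · rintro ⟨R, c, hc, d, h1, h2⟩
      have := fires_holds hcs hh hE hc h1
      rw [h2] at this
      exact this
  · rintro ⟨hh₀, hbot⟩
    obtain ⟨m', hm⟩ := est_stable (cs := cs) (ne := ne) (𝔄 := 𝔄) (𝒟 := DP 𝔅 ne P)
    set E := Einf cs ne 𝔄 (DP 𝔅 ne P) with hEdef
    -- closure properties
    have hclosed : ∀ a b, step cs ne 𝔄 (DP 𝔅 ne P) E a b → E a b := by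
      intro a b h
      rw [← hm] at h
      exact ⟨m' + 1, Or.inr h⟩
    have hsymm : ∀ a b, E a b → E b a := fun a b h => hclosed b a (Or.inr (Or.inl h))
    have htrans : ∀ a b c, Rf E a b → Rf E b c → E a c := fun a b c h1 h2 =>
      hclosed a c (Or.inl ⟨b, h1, h2⟩)
    have hrfs : ∀ a b, Rf E a b → Rf E b a := by
      rintro a b (h | h)
      · exact Or.inl h.symm
      · exact Or.inr (hsymm _ _ h)
    let stE : Setoid A := ⟨Rf E, ⟨fun a => Or.inl rfl, fun {a b} => hrfs a b,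
      fun {a b c} h1 h2 => Or.inr (htrans a b c h1 h2)⟩⟩
    have htr : ∀ a b c, Rf E a b → Rf E b c → Rf E a c := fun a b c h1 h2 =>
      Or.inr (htrans a b c h1 h2)
    -- saturation of the facts
    have hsat : ∀ (S : σ.S) (t t' : Fin (σ.ar S) → A), FRel cs 𝔄 E S t → (∀ k, Rf E (t k) (t' k)) →
        FRel cs 𝔄 E S t' := by
      rintro S t t' ⟨R, c, hc, d, h1, hS, f, h2, h3⟩ h4
      exact ⟨R, c, hc, d, h1, hS, f, h2, fun k => htr _ _ _ (h3 k) (h4 k)⟩
    let r₀ : A → A := fun x => (Quotient.mk stE x).out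
    have hr₀ : ∀ x, Rf E x (r₀ x) := fun x => hrfs _ _ (Quotient.mk_out (s := stE) x)
    have hr₀' : ∀ x y, Rf E x y → r₀ x = r₀ y := by
      intro x y hxy
      simp only [r₀]
      rw [Quotient.sound (s := stE) hxy]
    -- good maps
    have parts : ∀ i, ∃ u : A → B,
        (∀ S ∈ P i, ∀ (t : Fin (σ.ar S) → A), FRel cs 𝔄 E S t → 𝔅.rel S (fun j => u (t j))) ∧
        (∀ x y, Rf E x y → u x = u y) ∧ ∀ x y, u x = u y → Rf E x y := by
      intro i
      obtain ⟨h₀, hh₀⟩ := hh₀ i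
      let Good : (A → B) → Prop := fun u =>
        (∀ S ∈ P i, ∀ (t : Fin (σ.ar S) → A), FRel cs 𝔄 E S t → 𝔅.rel S (fun j => u (t j))) ∧
        ∀ x y, Rf E x y → u x = u y
      have hgood : ∀ (u : A → B) (r : A → A), (∀ S ∈ P i, ∀ (t : Fin (σ.ar S) → A),
          FRel cs 𝔄 E S t → 𝔅.rel S (fun j => u (t j))) → (∀ x, Rf E x (r x)) →
          (∀ x y, Rf E x y → r x = r y) → Good (fun x => u (r x)) := by
        intro u r h1 h2 h3
        refine ⟨fun S hS t ht => ?_, fun x y hxy => by simp only; rw [h3 x y hxy]⟩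
        exact h1 S hS (fun j => r (t j)) (hsat S t _ ht (fun k => h2 _))
      have g₀ : Good (fun x => h₀ (r₀ x)) :=
        hgood h₀ r₀ (fun S hS t ht => hh₀ ⟨S, Set.mem_insert_of_mem _ hS⟩ t (Or.inl ht)) hr₀ hr₀'
      have g₁ : ∀ p : A × A, ∃ u : A → B, Good u ∧ (¬ Rf E p.1 p.2 → u p.1 ≠ u p.2) := by
        rintro ⟨a, b⟩
        by_cases hab : Rf E a b
        · exact ⟨fun x => h₀ (r₀ x), g₀, fun h => absurd hab h⟩
        · have hcsp : DP 𝔅 ne P A (cur cs ne 𝔄 E (fun x y => x = a ∧ y = b)) := by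
            by_contra hcon
            exact hab (Or.inr (hclosed a b (Or.inr (Or.inr (Or.inr hcon)))))
          obtain ⟨u, hu⟩ := hcsp i
          let r : A → A := fun x => if Rf E x a then a else if Rf E x b then b else r₀ x
          have hr : ∀ x, Rf E x (r x) := by
            intro x
            simp only [r]
            split_ifs with h1 h2
            · exact h1
            · exact h2
            · exact hr₀ x
          have hr' : ∀ x y, Rf E x y → r x = r y := by
            intro x y hxy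
            have e1 : Rf E x a ↔ Rf E y a :=
              ⟨fun h => htr _ _ _ (hrfs _ _ hxy) h, fun h => htr _ _ _ hxy h⟩
            have e2 : Rf E x b ↔ Rf E y b :=
              ⟨fun h => htr _ _ _ (hrfs _ _ hxy) h, fun h => htr _ _ _ hxy h⟩
            simp only [r, e1, e2, hr₀' x y hxy]
          refine ⟨fun x => u (r x), hgood u r
            (fun S hS t ht => hu ⟨S, Set.mem_insert_of_mem _ hS⟩ t (Or.inl ht)) hr hr', fun _ => ?_⟩
          have ra : r a = a := by
            have : Rf E a a := Or.inl rfl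
            simp only [r, this, if_true]
          have rb : r b = b := by
            have h1 : ¬ Rf E b a := fun h => hab (hrfs _ _ h)
            have h2 : Rf E b b := Or.inl rfl
            simp only [r, h1, h2, if_true, if_false]
          simp only [ra, rb]
          have h3 : 𝔅.rel ne (fun j => u (if (j : ℕ) = 0 then a else b)) :=
            hu ⟨ne, Set.mem_insert _ _⟩ (fun j => if (j : ℕ) = 0 then a else b)
            (Or.inr ⟨rfl, a, b, ⟨rfl, rfl⟩, fun _ => rfl⟩)
          rw [hne.2] at h3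
          intro h4
          apply h3
          intro i j
          split_ifs <;> simp [h4]
      -- combination
      obtain ⟨g, hg, hgp⟩ := hinj i
      have comb : ∀ L : List (A × A), ∃ u : A → B, Good u ∧
          ∀ p ∈ L, ¬ Rf E p.1 p.2 → u p.1 ≠ u p.2 := by
        intro L
        induction L with
        | nil => exact ⟨fun x => h₀ (r₀ x), g₀, fun p hp => by simp at hp⟩
        | cons p L ih =>
          obtain ⟨u, hu, hu'⟩ := ih
          obtain ⟨w, hw, hw'⟩ := g₁ p
          refine ⟨fun x => g ![u x, w x], ⟨fun S hS t ht => ?_, fun x y hxy => ?_⟩, ?_⟩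
          · have := hgp S hS ![fun j => u (t j), fun j => w (t j)] (by
              intro i
              fin_cases i
              · exact hu.1 S hS t ht
              · exact hw.1 S hS t ht)
            have e : (fun j => g ![u (t j), w (t j)]) = fun j => g (fun i =>
                (![fun j => u (t j), fun j => w (t j)] : Fin 2 → Fin (σ.ar S) → B) i j) := by
              funext j
              congr 1
              funext i
              fin_cases i <;> rfl
            rw [e]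
            exact this
          · simp only
            rw [hu.2 x y hxy, hw.2 x y hxy]
          · intro q hq hqE heq
            have h1 := hg heq
            have h2 : u q.1 = u q.2 := by simpa using congrFun h1 0
            have h3 : w q.1 = w q.2 := by simpa using congrFun h1 1
            rcases List.mem_cons.1 hq with rfl | hq
            · exact hw' hqE h3
            · exact hu' q hq hqE h2
      have : Fintype A := Fintype.ofFinite A
      obtain ⟨u, hu, hu'⟩ := comb (Finset.univ : Finset (A × A)).toList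
      refine ⟨u, hu.1, hu.2, fun x y hxy => ?_⟩
      by_contra hE
      exact hu' (x, y) (by simp) hE hxy
    -- gluing
    let 𝔔 : Str σ (Quotient stE) :=
      ⟨fun S c => ∃ t, FRel cs 𝔄 E S t ∧ ∀ k, Quotient.mk stE (t k) = c k⟩
    obtain ⟨w, hwinj, hw⟩ := hglue (Quotient stE) 𝔔 (by
      intro i
      obtain ⟨u, h1, h2, h3⟩ := parts i
      refine ⟨Quotient.lift u (fun x y hxy => h2 x y hxy), ?_, ?_⟩
      · intro x y
        induction x using Quotient.ind
        induction y using Quotient.ind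
        intro h
        exact Quotient.sound (h3 _ _ h)
      · rintro S hS c ⟨t, ht, htc⟩
        have e : (fun j => Quotient.lift u (fun x y hxy => h2 x y hxy) (c j)) =
            fun j => u (t j) := by
          funext j
          rw [← htc j]
          rfl
        rw [e]
        exact h1 S hS t ht)
    let u : A → B := fun a => w (Quotient.mk stE a)
    have hu1 : ∀ (S : σ.S) (t : Fin (σ.ar S) → A), FRel cs 𝔄 E S t →
        𝔅.rel S (fun j => u (t j)) := by
      intro S t ht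
      have hS : S ∈ τ := by
        obtain ⟨R, c, hc, d, h1, hS, f, h2, h3⟩ := ht
        exact hS
      exact hw S (hP hS) (fun j => Quotient.mk stE (t j)) ⟨t, ht, fun _ => rfl⟩
    have hu2 : ∀ x y, Rf E x y → u x = u y := by
      intro x y hxy
      show w _ = w _
      rw [Quotient.sound (s := stE) hxy]
    have huE : ∀ x y, u x = u y → Rf E x y := by
      intro x y hxy
      exact Quotient.exact (s := stE) (hwinj hxy)
    refine ⟨u, fun R d hd => (hcs R _).2 (fun c hc hprem => ?_)⟩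
    have hf : Fires 𝔄 E R c d := ⟨hd, fun p hp => huE _ _ (hprem p hp)⟩
    cases hcc : c.concl with
    | bot => exact hbot ⟨R, c, hc, d, hf, hcc⟩
    | eq i j =>
      have : E (d i) (d j) :=
        hclosed _ _ (Or.inr (Or.inr (Or.inl ⟨R, c, hc, d, hf, i, j, hcc, rfl, rfl⟩)))
      exact hu2 _ _ (Or.inr this)
    | rel S hS f =>
      exact hu1 S (fun k => d (f k)) ⟨R, c, hc, d, hf, hS, f, hcc, fun k => Or.inl rfl⟩

/-- In the structure of the current facts, the ordered quotient may be taken. -/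
lemma cur_quot [Finite A] {𝔅 : Str σ B} (hTS : HasTSOn 𝔅 τ) (hne : IsNe 𝔅 ne) {E : A → A → Prop} {N : A → A → Prop}
    (hN : ∀ a b a' b', N a b → N a' b' → a = a' ∧ b = b')
    (Q : OQ (cur cs ne 𝔄 E N)) (hneτ : ne ∉ τ) :
    CSP 𝔅 A (cur cs ne 𝔄 E N) ↔ CSP 𝔅 (Fin Q.q) Q.str := by
  apply csp_quot' hTS Q
  intro R hR t ht j a ha
  rcases ht with ⟨R', c, hc, d, h1, hS, _⟩ | ⟨rfl, x, y, hxy, h2⟩
  · exact absurd hS hR
  · obtain ⟨t', h3, h4, _⟩ := Q.bisim _ t (Or.inr ⟨rfl, x, y, hxy, h2⟩) j a ha.symm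
    rcases h3 with ⟨R', c, hc, d, h1, hS, _⟩ | ⟨_, x', y', hxy', h5⟩
    · exact absurd hS hR
    · obtain ⟨rfl, rfl⟩ := hN _ _ _ _ hxy hxy'
      rw [← h4, h5, h2]

end alg

end Pool.Agent.Work.MP_8dbde4_lc.TS
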