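import Pool.Agent.Work.MP_8dbde4_lc.TS.Sub
import Pool.Agent.Work.MP_8dbde4_lc.TS.HornSem

/-!
# Horn closures: the FP formula
-/

namespace Pool.Agent.Work.MP_8dbde4_lc.TS

open Pool.Agent.Work.MP_8dbde4_lc.TS.FP

variable {σ : Sig} {A : Type} {B : Type}

/-- renaming of the variables of the inner formula -/
def gv (x : ℕ) : ℕ := 2 * x
def Gv (x : ℕ) : ℕ := 2 * x + 1
def dB (j : ℕ) : ℕ := 4 * j + 7
def zB (j : ℕ) : ℕ := 4 * j + 9

lemma gv_inj : Function.Injective gv := fun i j h => by unfold gv at h; omega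
lemma Gv_inj : Function.Injective Gv := fun i j h => by unfold Gv at h; omega
lemma dB_inj : Function.Injective dB := fun i j h => by unfold dB at h; omega
lemma zB_inj : Function.Injective zB := fun i j h => by unfold zB at h; omega

section

variable {τ : Set σ.S} (cs : (R : σ.S) → List (Clause σ τ (σ.ar R))) (ne : σ.S)
  (Em : ℕ → ℕ → FP σ)

def rfF (x y : ℕ) : FP σ := FP.or (FP.eq x y) (Em x y)

def firesF (R : σ.S) (c : Clause σ τ (σ.ar R)) : FP σ :=
  FP.and (FP.rel R (fun j => dB j)) (bigAnd (c.prem.map (fun p => rfF Em (dB p.1) (dB p.2))))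

open Classical in
noncomputable def relPart (S : σ.S) (R : σ.S) (c : Clause σ τ (σ.ar R)) : FP σ :=
  match c.concl with
  | .bot => FP.ff
  | .eq _ _ => FP.ff
  | .rel S' _ f => if S' = S then exB dB (σ.ar R) (FP.and (firesF Em R c)
      (bigAnd ((List.finRange (σ.ar S')).map (fun k : Fin (σ.ar S') =>
        rfF Em (dB (f k)) (zB k))))) else FP.ff

noncomputable def eqPart (R : σ.S) (c : Clause σ τ (σ.ar R)) : FP σ :=
  match c.concl with
  | .bot => FP.ff
  | .eq i j => exB dB (σ.ar R) (FP.and (firesF Em R c)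
      (FP.and (FP.eq (dB i) 1) (FP.eq (dB j) 3)))
  | .rel _ _ _ => FP.ff

noncomputable def botPart (R : σ.S) (c : Clause σ τ (σ.ar R)) : FP σ :=
  match c.concl with
  | .bot => exB dB (σ.ar R) (firesF Em R c)
  | .eq _ _ => FP.ff
  | .rel _ _ _ => FP.ff

noncomputable def allC (F : (R : σ.S) → Clause σ τ (σ.ar R) → FP σ) : FP σ :=
  bigOr ((Finset.univ : Finset σ.S).toList.map (fun R => bigOr ((cs R).map (F R))))

open Classical in
noncomputable def psi (nef : FP σ) (S : σ.S) : FP σ :=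
  FP.or (allC cs (relPart Em S)) (if S = ne then nef else FP.ff)

variable {cs ne Em}

lemma eval_allC (𝔄 : Str σ A) (v : ℕ → A) (β : ℕ → List A → Prop)
    (F : (R : σ.S) → Clause σ τ (σ.ar R) → FP σ) :
    (allC cs F).eval 𝔄 v β ↔ ∃ R, ∃ c ∈ cs R, (F R c).eval 𝔄 v β := by
  unfold allC
  simp only [eval_bigOr, List.mem_map, Finset.mem_toList, Finset.mem_univ, true_and,
    exists_exists_eq_and, exists_exists_and_eq_and]

/-- `Em` expresses the relation `E`, at assignments which agree with `v₀`, `β₀` at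
the odd variables, resp. at the relation variable `0`. -/
def Good (𝔄 : Str σ A) (Em : ℕ → ℕ → FP σ) (β₀ : List A → Prop) (E : A → A → Prop) : Prop :=
  ∀ (v : ℕ → A) (β : ℕ → List A → Prop) (x y : ℕ), x % 2 = 1 → y % 2 = 1 → β 0 = β₀ →
    ((Em x y).eval 𝔄 v β ↔ E (v x) (v y))

variable {𝔄 : Str σ A} {β₀ : List A → Prop} {E : A → A → Prop}

lemma dB_odd (j : ℕ) : dB j % 2 = 1 := by unfold dB; omega
lemma zB_odd (j : ℕ) : zB j % 2 = 1 := by unfold zB; omega
lemma dB_ne_zB (i j : ℕ) : dB i ≠ zB j := by unfold dB zB; omega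

lemma eval_rfF (hE : Good 𝔄 Em β₀ E) (v : ℕ → A) (β : ℕ → List A → Prop) (x y : ℕ)
    (hx : x % 2 = 1) (hy : y % 2 = 1) (hβ : β 0 = β₀) :
    (rfF Em x y).eval 𝔄 v β ↔ Rf E (v x) (v y) := by
  unfold rfF Rf
  rw [eval_or, eval_eq, hE v β x y hx hy hβ]

lemma eval_firesF (hE : Good 𝔄 Em β₀ E) (v : ℕ → A) (β : ℕ → List A → Prop)
    (hβ : β 0 = β₀) (R : σ.S) (c : Clause σ τ (σ.ar R)) (d : Fin (σ.ar R) → A) :
    (firesF Em R c).eval 𝔄 (blk v dB (σ.ar R) d) β ↔ Fires 𝔄 E R c d := by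
  unfold firesF Fires
  simp only [eval_and, eval_rel, eval_bigAnd, List.mem_map, forall_exists_index, and_imp,
    forall_apply_eq_imp_iff₂, blk_apply v dB_inj, eval_rfF hE _ β _ _ (dB_odd _) (dB_odd _) hβ]

lemma eval_relPart (hE : Good 𝔄 Em β₀ E) (v : ℕ → A) (β : ℕ → List A → Prop)
    (hβ : β 0 = β₀) (S : σ.S) (t : Fin (σ.ar S) → A) (R : σ.S) (c : Clause σ τ (σ.ar R)) :
    (relPart Em S R c).eval 𝔄 (blk v zB (σ.ar S) t) β ↔
      ∃ d, Fires 𝔄 E R c d ∧ ∃ hS f, c.concl = Concl.rel S hS f ∧ ∀ k, Rf E (d (f k)) (t k) := by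
  rcases c with ⟨prem, concl⟩
  cases concl with
  | bot => simp [relPart]
  | eq i j => simp [relPart]
  | rel S' hS' f =>
    unfold relPart
    simp only
    split_ifs with h
    · subst h
      rw [eval_exB]
      refine exists_congr fun d => ?_
      rw [eval_and, eval_firesF hE _ β hβ]
      refine and_congr_right fun _ => ?_
      simp only [eval_bigAnd, List.mem_map, List.mem_finRange, true_and, forall_exists_index,
        forall_apply_eq_imp_iff, eval_rfF hE _ β _ _ (dB_odd _) (zB_odd _) hβ,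
        blk_apply _ dB_inj]
      constructor
      · intro h
        refine ⟨hS', f, rfl, fun k => ?_⟩
        have := h k
        rw [blk_of_ne _ dB _ (fun j => dB_ne_zB j k), blk_apply v zB_inj] at this
        exact this
      · rintro ⟨hS, f', he, h⟩ k
        rw [blk_of_ne _ dB _ (fun j => dB_ne_zB j k), blk_apply v zB_inj]
        have hf : f = f' := by
          simpa using he
        rw [hf]
        exact h k
    · simp only [eval_ff, false_iff, not_exists, not_and]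
      intro d _ hS f' he
      exfalso
      apply h
      injection he

lemma eval_eqPart (hE : Good 𝔄 Em β₀ E) (v : ℕ → A) (β : ℕ → List A → Prop)
    (hβ : β 0 = β₀) (R : σ.S) (c : Clause σ τ (σ.ar R)) :
    (eqPart Em R c).eval 𝔄 v β ↔
      ∃ d, Fires 𝔄 E R c d ∧ ∃ i j, c.concl = Concl.eq i j ∧ d i = v 1 ∧ d j = v 3 := by
  rcases c with ⟨prem, concl⟩
  cases concl with
  | bot => simp [eqPart]
  | rel S' hS' f => simp [eqPart]
  | eq i j =>
    unfold eqPart
    simp only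
    rw [eval_exB]
    refine exists_congr fun d => ?_
    rw [eval_and, eval_firesF hE _ β hβ, eval_and, eval_eq, eval_eq, blk_apply v dB_inj,
      blk_apply v dB_inj, blk_of_ne v dB 1 (fun j => by unfold dB; omega),
      blk_of_ne v dB 3 (fun j => by unfold dB; omega)]
    refine and_congr_right fun _ => ?_
    constructor
    · intro h
      exact ⟨i, j, rfl, h⟩
    · rintro ⟨i', j', he, h⟩
      injection he with h1 h2
      subst h1 h2
      exact h

lemma eval_botPart (hE : Good 𝔄 Em β₀ E) (v : ℕ → A) (β : ℕ → List A → Prop)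
    (hβ : β 0 = β₀) (R : σ.S) (c : Clause σ τ (σ.ar R)) :
    (botPart Em R c).eval 𝔄 v β ↔ ∃ d, Fires 𝔄 E R c d ∧ c.concl = Concl.bot := by
  rcases c with ⟨prem, concl⟩
  cases concl with
  | eq i j => simp [botPart]
  | rel S' hS' f => simp [botPart]
  | bot =>
    unfold botPart
    simp only
    rw [eval_exB]
    refine exists_congr fun d => ?_
    rw [eval_firesF hE _ β hβ]
    simp

lemma eval_psi (hE : Good 𝔄 Em β₀ E) (v : ℕ → A) (β : ℕ → List A → Prop)
    (hβ : β 0 = β₀) (nef : FP σ) (N : A → A → Prop)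
    (hnef : ∀ t : Fin (σ.ar ne) → A, nef.eval 𝔄 (blk v zB (σ.ar ne) t) β ↔
      ∃ a b, N a b ∧ ∀ j : Fin (σ.ar ne), t j = if (j : ℕ) = 0 then a else b)
    (S : σ.S) (t : Fin (σ.ar S) → A) :
    (psi cs ne Em nef S).eval 𝔄 (blk v zB (σ.ar S) t) β ↔ (cur cs ne 𝔄 E N).rel S t := by
  unfold psi
  rw [eval_or, eval_allC]
  show _ ↔ FRel cs 𝔄 E S t ∨ _
  refine or_congr ?_ ?_
  · unfold FRel
    refine exists_congr fun R => exists_congr fun c => and_congr_right fun _ => ?_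
    exact eval_relPart hE v β hβ S t R c
  · split_ifs with h
    · subst h
      rw [hnef]
      simp
    · simp [h]

end

section main

variable {τ : Set σ.S} (cs : (R : σ.S) → List (Clause σ τ (σ.ar R))) (ne : σ.S)
  (Φ : FP σ)

/-- `E` as a relation variable -/
def Em0 (x y : ℕ) : FP σ := FP.app 0 [x, y]

noncomputable def bodyF : FP σ :=
  FP.or (FP.ex 5 (FP.and (rfF Em0 1 5) (rfF Em0 5 3)))
    (FP.or (FP.app 0 [3, 1]) (FP.or (allC cs (eqPart Em0))
      (FP.neg (sub (psi cs ne Em0 (FP.and (FP.eq (zB 0) 1) (FP.eq (zB 1) 3))) gv Gv zB Φ))))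

/-- `E` as a fixed point -/
noncomputable def Em1 (x y : ℕ) : FP σ := FP.ifp 0 [1, 3] (bodyF cs ne Φ) [x, y]

noncomputable def finalF : FP σ :=
  FP.and (sub (psi cs ne (Em1 cs ne Φ) FP.ff) gv Gv zB Φ)
    (FP.neg (allC cs (botPart (Em1 cs ne Φ))))

variable {cs ne Φ}

/-- `Φ` decides the class `𝒟` for the structures of current facts. -/
def DecF (cs : (R : σ.S) → List (Clause σ τ (σ.ar R))) (ne : σ.S) (𝒟 : Class σ) (Φ : FP σ) :
    Prop :=
  ∀ (A : Type) [Finite A] [Nonempty A] (𝔄 : Str σ A) (w : ℕ → A) (β : ℕ → List A → Prop)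
    (E N : A → A → Prop), (∀ a b a' b', N a b → N a' b' → a = a' ∧ b = b') →
    (Φ.eval (cur cs ne 𝔄 E N) w β ↔ 𝒟 A (cur cs ne 𝔄 E N))

variable {𝔄 : Str σ A} {𝔅 : Str σ B} {𝒟 : Class σ}

lemma eval_body [Finite A] [Nonempty A] (hΦ : DecF cs ne 𝒟 Φ) (hne : IsNe 𝔅 ne)
    (v : ℕ → A) (β : ℕ → List A → Prop) :
    (bodyF cs ne Φ).eval 𝔄 v β ↔
      step cs ne 𝔄 𝒟 (fun a b => β 0 [a, b]) (v 1) (v 3) := by
  have hE : Good 𝔄 Em0 (β 0) (fun a b => β 0 [a, b]) := by
    intro v' β' x y _ _ hβ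
    unfold Em0
    rw [eval_app, hβ]
    rfl
  unfold bodyF step
  rw [eval_or, eval_or, eval_or]
  refine or_congr ?_ (or_congr ?_ (or_congr ?_ ?_))
  · rw [eval_ex]
    refine exists_congr fun c => ?_
    rw [eval_and, eval_rfF hE _ β _ _ (by norm_num) (by norm_num) rfl,
      eval_rfF hE _ β _ _ (by norm_num) (by norm_num) rfl, Function.update_self,
      Function.update_of_ne (by norm_num), Function.update_of_ne (by norm_num)]
  · rfl
  · rw [eval_allC]
    unfold FEq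
    refine exists_congr fun R => exists_congr fun c => and_congr_right fun _ => ?_
    exact eval_eqPart hE v β rfl R c
  · rw [eval_neg]
    refine not_congr ?_
    have hsub := eval_sub 𝔄 (cur cs ne 𝔄 (fun a b => β 0 [a, b])
        (fun x y => x = v 1 ∧ y = v 3))
      (psi cs ne Em0 (FP.and (FP.eq (zB 0) 1) (FP.eq (zB 1) 3))) gv_inj Gv_inj zB_inj
      (fun i j => by unfold gv zB; omega) v β ?_ Φ v β (fun _ _ => rfl) (fun _ _ => rfl)
    · rw [hsub]
      exact hΦ A 𝔄 _ _ _ _ (fun a b a' b' h h' => ⟨h.1.trans h'.1.symm, h.2.trans h'.2.symm⟩)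
    · intro v' β' hv hβ S t
      have hβ0 : β' 0 = β 0 := hβ 0 (fun Y => by unfold Gv; omega)
      refine eval_psi hE v' β' hβ0 _ _ (fun t => ?_) S t
      have h2 := hne.1
      have e0 : blk v' zB (σ.ar ne) t (zB 0) = t ⟨0, by omega⟩ :=
        blk_apply v' zB_inj (σ.ar ne) t ⟨0, by omega⟩
      have e1 : blk v' zB (σ.ar ne) t (zB 1) = t ⟨1, by omega⟩ :=
        blk_apply v' zB_inj (σ.ar ne) t ⟨1, by omega⟩
      have f1 : v' 1 = v 1 := hv 1 (fun y => by unfold gv; omega)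
      have f3 : v' 3 = v 3 := hv 3 (fun y => by unfold gv; omega)
      rw [eval_and, eval_eq, eval_eq, e0, e1, blk_of_ne v' zB 1 (fun j => by unfold zB; omega),
        blk_of_ne v' zB 3 (fun j => by unfold zB; omega), f1, f3]
      constructor
      · rintro ⟨h3, h4⟩
        refine ⟨v 1, v 3, ⟨rfl, rfl⟩, fun j => ?_⟩
        split_ifs with hj
        · rw [← h3]; congr 1; exact Fin.ext hj
        · rw [← h4]; congr 1; apply Fin.ext; have := j.2; simp only; omega
      · rintro ⟨a, b, ⟨rfl, rfl⟩, h3⟩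
        exact ⟨by rw [h3]; simp, by rw [h3]; simp⟩

lemma eval_Em1 [Finite A] [Nonempty A] (hΦ : DecF cs ne 𝒟 Φ) (hne : IsNe 𝔅 ne)
    (v : ℕ → A) (β : ℕ → List A → Prop) (x y : ℕ) :
    (Em1 cs ne Φ x y).eval 𝔄 v β ↔ Einf cs ne 𝔄 𝒟 (v x) (v y) := by
  have key : ∀ (n : ℕ) (a b : A),
      stage (fun P l => [1, 3].Nodup ∧ l.length = [1, 3].length ∧
        (bodyF cs ne Φ).eval 𝔄 (upd v [1, 3] l) (Function.update β 0 P)) n [a, b] ↔
      Est cs ne 𝔄 𝒟 n a b := by
    intro n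
    induction n with
    | zero => intro a b; exact Iff.rfl
    | succ n ih =>
      intro a b
      show (stage _ n [a, b] ∨ (_ ∧ _ ∧ _)) ↔
        (Est cs ne 𝔄 𝒟 n a b ∨ step cs ne 𝔄 𝒟 (Est cs ne 𝔄 𝒟 n) a b)
      refine or_congr (ih a b) ?_
      generalize stage (fun P l => [1, 3].Nodup ∧ l.length = [1, 3].length ∧
        (bodyF cs ne Φ).eval 𝔄 (upd v [1, 3] l) (Function.update β 0 P)) n = S at ih ⊢
      have hfun : (fun a b => S [a, b]) = Est cs ne 𝔄 𝒟 n := by
        funext a b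
        exact propext (ih a b)
      rw [eval_body hΦ hne]
      have e1 : upd v [1, 3] [a, b] 1 = a := by
        simp [upd]
      have e3 : upd v [1, 3] [a, b] 3 = b := by
        simp [upd]
      rw [e1, e3, Function.update_self, hfun]
      simp
  show (∃ n, stage _ n [v x, v y]) ↔ _
  exact exists_congr fun n => key n _ _

lemma eval_finalF [Finite A] [Nonempty A] (hΦ : DecF cs ne 𝒟 Φ) (hne : IsNe 𝔅 ne)
    (v : ℕ → A) (β : ℕ → List A → Prop) :
    (finalF cs ne Φ).eval 𝔄 v β ↔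
      𝒟 A (cur cs ne 𝔄 (Einf cs ne 𝔄 𝒟) (fun _ _ => False)) ∧
      ¬ FBot cs 𝔄 (Einf cs ne 𝔄 𝒟) := by
  have hE : Good 𝔄 (Em1 cs ne Φ) (β 0) (Einf cs ne 𝔄 𝒟) := by
    intro v' β' x y _ _ _
    exact eval_Em1 hΦ hne v' β' x y
  unfold finalF
  rw [eval_and, eval_neg, eval_allC]
  refine and_congr ?_ (not_congr ?_)
  · have hsub := eval_sub 𝔄 (cur cs ne 𝔄 (Einf cs ne 𝔄 𝒟) (fun _ _ => False))
      (psi cs ne (Em1 cs ne Φ) FP.ff) gv_inj Gv_inj zB_inj
      (fun i j => by unfold gv zB; omega) v β ?_ Φ v β (fun _ _ => rfl) (fun _ _ => rfl)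
    · rw [hsub]
      exact hΦ A 𝔄 _ _ _ _ (fun a b a' b' h h' => h.elim)
    · intro v' β' hv hβ S t
      have hβ0 : β' 0 = β 0 := hβ 0 (fun Y => by unfold Gv; omega)
      refine eval_psi hE v' β' hβ0 _ _ (fun t => ?_) S t
      simp
  · unfold FBot
    refine exists_congr fun R => exists_congr fun c => and_congr_right fun _ => ?_
    exact eval_botPart hE v β rfl R c

end main

lemma eval_kill_nil (𝔄 : Str σ A) (Φ : FP σ) (w : ℕ → A) (β : ℕ → List A → Prop) :
    (kill [] Φ).eval 𝔄 w β ↔ Φ.eval 𝔄 w (fun _ _ => False) := by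
  rw [eval_kill]
  have : (fun X => if X ∈ ([] : List ℕ) then β X else fun _ => False) =
      fun (_ : ℕ) (_ : List A) => False := by
    funext X
    simp
  rw [this]

/-- The structures of current facts only have relations in `τ` and disequality facts. -/
lemma dp_one {𝔅 : Str σ B} {τ : Set σ.S} {cs : (R : σ.S) → List (Clause σ τ (σ.ar R))} {ne : σ.S}
    {𝔄 : Str σ A} {E N : A → A → Prop} :
    DP 𝔅 ne (fun _ : Fin 1 => τ) A (cur cs ne 𝔄 E N) ↔ CSP 𝔅 A (cur cs ne 𝔄 E N) := by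
  constructor
  · intro h
    obtain ⟨u, hu⟩ := h 0
    refine ⟨u, fun R t ht => ?_⟩
    have hR : R ∈ insert ne τ := by
      rcases ht with ⟨R', c, hc, d, h1, hS, _⟩ | ⟨rfl, _⟩
      · exact Set.mem_insert_of_mem _ hS
      · exact Set.mem_insert _ _
    exact hu ⟨R, hR⟩ t ht
  · exact dp_of_csp _

lemma glues_one {𝔅 : Str σ B} {τ : Set σ.S} : Glues 𝔅 (fun _ : Fin 1 => τ) := by
  intro A _ 𝔄 h
  obtain ⟨u, hu, hu'⟩ := h 0
  refine ⟨u, hu, fun R hR t ht => hu' R ?_ t ht⟩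
  simpa using hR

/-- **Main theorem, second version.**  If `𝔅` is a Horn closure of a totally symmetric language
and `CSP(𝔅)` is in FPC on ordered structures, then `CSP(𝔅)` is in FP. -/
theorem inFP_of_inFPCOrd_horn (𝔅 : Str σ B) (hH : IsHornTS 𝔅) (h : InFPCOrd (CSP 𝔅)) :
    InFP (CSP 𝔅) := by
  obtain ⟨τ, hTS, hinj, ⟨ne, hneτ, hne⟩, hcl⟩ := hH
  choose cs hcs using hcl
  obtain ⟨Φ, hΦ⟩ := exists_quotF 𝔅 h
  have hΦ' : DecF cs ne (DP 𝔅 ne (fun _ : Fin 1 => τ)) (kill [] Φ) := by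
    intro A _ _ 𝔄 w β E N hN
    obtain ⟨Q⟩ := exists_oq (cur cs ne 𝔄 E N)
    rw [dp_one, eval_kill_nil, hΦ A _ w Q, ← cur_quot hTS hne hN Q hneτ]
  refine ⟨finalF cs ne (kill [] Φ), fun A _ _ 𝔄 w => ?_⟩
  rw [eval_finalF hΦ' hne, ← horn_correct (P := fun _ : Fin 1 => τ)
    (fun x hx => Set.mem_iUnion.2 ⟨0, hx⟩) hcs hne (fun _ => hinj) glues_one]

end Pool.Agent.Work.MP_8dbde4_lc.TS
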