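import Pool.Agent.Work.MP_8dbde4_lc.TS.Trans

/-!
# The translation theorem
-/

namespace Pool.Agent.Work.MP_8dbde4_lc.TS

open Pool.Agent.Work.MP_8dbde4_lc.TS.FP

variable {σ : Sig} {A : Type} {𝔄 : Str σ A} {Q : OQ 𝔄}

lemma ev_valA (hq : 2 ≤ Q.q) (w : ℕ → A) (γ : ℕ → List A → Prop) : ∀ ys : List (ℕ ⊕ ℕ),
    (valA ys : FP σ).eval 𝔄 w γ ↔
      ∀ m, Sum.inr m ∈ ys → Q.val (w (4 * m + 1)) (w (4 * m + 2)) ≤ Q.q
  | [] => by simp [valA]
  | Sum.inl y :: ys => by
    rw [valA, ev_valA hq w γ ys]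
    simp
  | Sum.inr y :: ys => by
    rw [valA, eval_and, ev_valA hq w γ ys,
      ev_valF Q w γ hq _ _ (by unfold sc; omega) (by unfold sc; omega) (by unfold sc; omega)]
    simp

/-- Number of elements below `k` of the quotient with a property. -/
noncomputable def cntBelow (q : ℕ) (p : Fin q → Prop) (k : ℕ) : ℕ :=
  {c : Fin q | (c : ℕ) < k ∧ p c}.ncard

lemma cntBelow_zero (q : ℕ) (p : Fin q → Prop) : cntBelow q p 0 = 0 := by
  simp [cntBelow]

open Classical in
lemma cntBelow_succ (q : ℕ) (p : Fin q → Prop) (k : Fin q) :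
    cntBelow q p ((k : ℕ) + 1) = cntBelow q p k + if p k then 1 else 0 := by
  unfold cntBelow
  split_ifs with h
  · have : {c : Fin q | (c : ℕ) < (k : ℕ) + 1 ∧ p c} = insert k {c : Fin q | (c : ℕ) < k ∧ p c} := by
      ext c
      simp only [Set.mem_ofPred_eq, Set.mem_insert_iff, Fin.ext_iff]
      constructor
      · rintro ⟨h1, h2⟩
        rcases Nat.lt_succ_iff_lt_or_eq.1 h1 with h3 | h3
        · exact Or.inr ⟨h3, h2⟩
        · exact Or.inl h3
      · rintro (h1 | ⟨h1, h2⟩)
        · have : c = k := Fin.ext h1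
          subst this
          exact ⟨by omega, h⟩
        · exact ⟨by omega, h2⟩
    rw [this, Set.ncard_insert_of_notMem (by simp) (Set.toFinite _)]
  · have : {c : Fin q | (c : ℕ) < (k : ℕ) + 1 ∧ p c} = {c : Fin q | (c : ℕ) < k ∧ p c} := by
      ext c
      simp only [Set.mem_ofPred_eq]
      constructor
      · rintro ⟨h1, h2⟩
        rcases Nat.lt_succ_iff_lt_or_eq.1 h1 with h3 | h3
        · exact ⟨h3, h2⟩
        · have : c = k := Fin.ext h3
          subst this
          exact absurd h2 h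
      · rintro ⟨h1, h2⟩
        exact ⟨by omega, h2⟩
    rw [this]
    rfl

lemma cntBelow_le (q : ℕ) (p : Fin q → Prop) (k : ℕ) : cntBelow q p k ≤ k := by
  unfold cntBelow
  calc {c : Fin q | (c : ℕ) < k ∧ p c}.ncard
      ≤ (Finset.range k : Set ℕ).ncard := by
        apply Set.ncard_le_ncard_of_injOn (fun c : Fin q => (c : ℕ))
        · intro c hc
          simpa using hc.1
        · intro c _ d _ h
          exact Fin.ext h
    _ = k := by rw [Set.ncard_coe_finset, Finset.card_range]

lemma cntBelow_top (q : ℕ) (p : Fin q → Prop) : cntBelow q p q = {c : Fin q | p c}.ncard := by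
  unfold cntBelow
  congr 1
  ext c
  simp

lemma exists_val (hq : 2 ≤ Q.q) (k : ℕ) (hk : k ≤ Q.q) : ∃ a b : A, Q.val a b = k := by
  have h1 : k / Q.q < Q.q := by
    apply Nat.div_lt_of_lt_mul
    nlinarith
  have h2 : k % Q.q < Q.q := Nat.mod_lt _ (by omega)
  obtain ⟨a, ha⟩ := Q.surj ⟨k / Q.q, h1⟩
  obtain ⟨b, hb⟩ := Q.surj ⟨k % Q.q, h2⟩
  refine ⟨a, b, ?_⟩
  unfold OQ.val
  rw [ha, hb]
  simp only
  rw [mul_comm]
  exact Nat.div_add_mod k Q.q

lemma val_inj {a b c d : A} (h : Q.val a b = Q.val c d) : Q.ρ a = Q.ρ c ∧ Q.ρ b = Q.ρ d := by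
  unfold OQ.val at h
  have h1 := (Q.ρ b).2
  have h2 := (Q.ρ d).2
  have h3 := (val_lt_iff Q.q (Q.ρ a) (Q.ρ b) (Q.ρ c) (Q.ρ d) h1 h2).1 h.le
  have h4 := (val_lt_iff Q.q (Q.ρ c) (Q.ρ d) (Q.ρ a) (Q.ρ b) h2 h1).1 h.ge
  constructor
  · apply Fin.ext; omega
  · apply Fin.ext
    have : (Q.ρ a : ℕ) = Q.ρ c := by omega
    omega

/-- The counting induction. -/
lemma ev_cnt (hq : 2 ≤ Q.q) (x m : ℕ) (φ : FP σ) (p : Fin Q.q → Prop) (w : ℕ → A)
    (γ : ℕ → List A → Prop)
    (hφ : ∀ (w' : ℕ → A) (γ' : ℕ → List A → Prop), (∀ y, y % 4 ≠ 3 → y ≠ 4 * x → w' y = w y) →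
      (∀ X, γ' (2 * X) = γ (2 * X)) → (φ.eval 𝔄 w' γ' ↔ p (Q.ρ (w' (4 * x))))) :
    (cntF x φ m).eval 𝔄 w γ ↔
      {c : Fin Q.q | p c}.ncard = Q.val (w (4 * m + 1)) (w (4 * m + 2)) := by
  classical
  -- distinctness of the variables involved
  have s12 : sc 1 ≠ sc 2 := by rw [Ne, sc_inj]; omega
  have s13 : sc 1 ≠ sc 3 := by rw [Ne, sc_inj]; omega
  have s23 : sc 2 ≠ sc 3 := by rw [Ne, sc_inj]; omega
  have s10 : sc 1 ≠ sc 0 := by rw [Ne, sc_inj]; omega
  have s20 : sc 2 ≠ sc 0 := by rw [Ne, sc_inj]; omega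
  have s30 : sc 3 ≠ sc 0 := by rw [Ne, sc_inj]; omega
  have s40 : sc 4 ≠ sc 0 := by rw [Ne, sc_inj]; omega
  have s50 : sc 5 ≠ sc 0 := by rw [Ne, sc_inj]; omega
  have s14 : sc 1 ≠ sc 4 := by rw [Ne, sc_inj]; omega
  have s24 : sc 2 ≠ sc 4 := by rw [Ne, sc_inj]; omega
  have s34 : sc 3 ≠ sc 4 := by rw [Ne, sc_inj]; omega
  have s15 : sc 1 ≠ sc 5 := by rw [Ne, sc_inj]; omega
  have s25 : sc 2 ≠ sc 5 := by rw [Ne, sc_inj]; omega
  have s35 : sc 3 ≠ sc 5 := by rw [Ne, sc_inj]; omega
  have s45 : sc 4 ≠ sc 5 := by rw [Ne, sc_inj]; omega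
  have x0 : 4 * x ≠ sc 0 := by unfold sc; omega
  have x1 : sc 1 ≠ 4 * x := by unfold sc; omega
  have x2 : sc 2 ≠ 4 * x := by unfold sc; omega
  have x3 : sc 3 ≠ 4 * x := by unfold sc; omega
  have x4 : 4 * x ≠ sc 4 := by unfold sc; omega
  have x5 : 4 * x ≠ sc 5 := by unfold sc; omega
  have scm : ∀ j, sc j % 4 = 3 := fun j => by unfold sc; omega
  -- the meaning of the body
  have hbody : ∀ (w₁ : ℕ → A) (P : List A → Prop) (a b c : A),
      (∀ y, y % 4 ≠ 3 → y ≠ 4 * x → w₁ y = w y) →
      ((cBody x φ).eval 𝔄 (upd w₁ [sc 1, sc 2, sc 3] [a, b, c]) (Function.update γ 3 P) ↔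
      ((Q.ρ a : ℕ) = 0 ∧ Q.val b c = 0) ∨ ∃ a' b' c' : A, P [a', b', c'] ∧
        (Q.ρ a : ℕ) = Q.ρ a' + 1 ∧ Q.val b c = Q.val b' c' + if p (Q.ρ a') then 1 else 0) := by
    intro w₁ P a b c hw₁
    simp only [cBody, eval_or, eval_and, eval_ex, eval_neg, eval_app, ev_minF Q _ _ _ s10,
      ev_minF Q _ _ _ s20, ev_minF Q _ _ _ s30, ev_sucF Q _ _ _ _ x0 s10,
      ev_suc2 Q _ _ _ _ _ _ s40 s50 s20 s30, ev_eqL Q, List.map_cons, List.map_nil, upd,
      Function.update_self, Function.update_of_ne s12, Function.update_of_ne s13,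
      Function.update_of_ne s23, Function.update_of_ne x1, Function.update_of_ne x2,
      Function.update_of_ne x3, Function.update_of_ne x4, Function.update_of_ne x5,
      Function.update_of_ne s14, Function.update_of_ne s24, Function.update_of_ne s34,
      Function.update_of_ne s15, Function.update_of_ne s25, Function.update_of_ne s35,
      Function.update_of_ne s45]
    refine or_congr ?_ (exists_congr fun a' => exists_congr fun b' => exists_congr fun c' => ?_)
    · refine and_congr_right fun _ => ?_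
      unfold OQ.val
      constructor
      · rintro ⟨h1, h2⟩
        rw [h1, h2]; simp
      · intro h
        have h1 := (Q.ρ b).2
        have h2 : (Q.ρ c : ℕ) = 0 := by omega
        have h3 : (Q.ρ b : ℕ) * Q.q = 0 := by omega
        rcases Nat.mul_eq_zero.1 h3 with h4 | h4
        · exact ⟨h4, h2⟩
        · omega
    · refine and_congr_right fun _ => and_congr_right fun _ => ?_
      rw [hφ]
      · rw [Function.update_of_ne x5, Function.update_of_ne x4, Function.update_self]
        split_ifs with hp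
        · simp [hp]
        · simp only [hp, false_and, not_false_eq_true, true_and, false_or, add_zero]
          constructor
          · rintro ⟨h1, h2⟩
            unfold OQ.val
            rw [h1, h2]
          · intro h
            have := val_inj h
            exact ⟨this.1.symm, this.2.symm⟩
      · intro y hy hy'
        rw [Function.update_of_ne (fun h => hy (by rw [h]; exact scm 5)),
          Function.update_of_ne (fun h => hy (by rw [h]; exact scm 4)),
          Function.update_of_ne hy',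
          Function.update_of_ne (fun h => hy (by rw [h]; exact scm 3)),
          Function.update_of_ne (fun h => hy (by rw [h]; exact scm 2)),
          Function.update_of_ne (fun h => hy (by rw [h]; exact scm 1))]
        exact hw₁ y hy hy'
      · intro X
        rw [Function.update_of_ne (by omega)]
  -- the fixed point
  have hfix : ∀ (w₁ : ℕ → A) (xs : List ℕ) (a b c : A),
      (∀ y, y % 4 ≠ 3 → y ≠ 4 * x → w₁ y = w y) → xs.map w₁ = [a, b, c] →
      ((FP.ifp 3 [sc 1, sc 2, sc 3] (cBody x φ) xs).eval 𝔄 w₁ γ ↔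
        Q.val b c = cntBelow Q.q p (Q.ρ a)) := by
    intro w₁ xs a b c hw₁ hxs
    have hnd : [sc 1, sc 2, sc 3].Nodup := by simp [s12, s13, s23]
    show (∃ n, stage (fun P l => [sc 1, sc 2, sc 3].Nodup ∧ l.length = [sc 1, sc 2, sc 3].length ∧
        (cBody x φ).eval 𝔄 (upd w₁ [sc 1, sc 2, sc 3] l) (Function.update γ 3 P)) n
          (xs.map w₁)) ↔ _
    rw [hxs]
    set F : (List A → Prop) → List A → Prop := fun P l =>
      [sc 1, sc 2, sc 3].Nodup ∧ l.length = [sc 1, sc 2, sc 3].length ∧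
        (cBody x φ).eval 𝔄 (upd w₁ [sc 1, sc 2, sc 3] l) (Function.update γ 3 P) with hF
    have hsound : ∀ n a b c, stage F n [a, b, c] → Q.val b c = cntBelow Q.q p (Q.ρ a) := by
      intro n
      induction n with
      | zero => intro a b c h; exact absurd h (by simp [stage])
      | succ n ih =>
        intro a b c h
        rcases h with h | ⟨_, _, h⟩
        · exact ih a b c h
        · rcases (hbody w₁ _ a b c hw₁).1 h with ⟨h1, h2⟩ | ⟨a', b', c', h1, h2, h3⟩
          · rw [h1, h2, cntBelow_zero]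
          · rw [h3, h2, cntBelow_succ, ih a' b' c' h1]
    have hcomp : ∀ (k : ℕ) (a b c : A), (Q.ρ a : ℕ) = k → Q.val b c = cntBelow Q.q p k →
        stage F (k + 1) [a, b, c] := by
      intro k
      induction k with
      | zero =>
        intro a b c h1 h2
        refine Or.inr ⟨hnd, rfl, ?_⟩
        rw [hbody w₁ _ a b c hw₁]
        left
        exact ⟨h1, by rw [h2, cntBelow_zero]⟩
      | succ k ih =>
        intro a b c h1 h2
        have hk : k < Q.q := by have := (Q.ρ a).2; omega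
        obtain ⟨a', ha'⟩ := Q.surj ⟨k, hk⟩
        obtain ⟨b', c', hbc⟩ := exists_val (Q := Q) hq (cntBelow Q.q p k)
          ((cntBelow_le _ _ _).trans hk.le)
        refine Or.inr ⟨hnd, rfl, ?_⟩
        rw [hbody w₁ _ a b c hw₁]
        right
        refine ⟨a', b', c', ih a' b' c' (by rw [ha']) hbc, by rw [ha', h1], ?_⟩
        rw [h2, hbc, ha']
        exact cntBelow_succ Q.q p ⟨k, hk⟩
    constructor
    · rintro ⟨n, h⟩
      exact hsound n a b c h
    · intro h
      exact ⟨(Q.ρ a : ℕ) + 1, hcomp _ a b c rfl h⟩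
  -- conclusion
  have m1 : 4 * m + 1 ≠ sc 0 := by unfold sc; omega
  have m2 : 4 * m + 2 ≠ sc 0 := by unfold sc; omega
  have m14 : 4 * m + 1 ≠ sc 4 := by unfold sc; omega
  have m15 : 4 * m + 1 ≠ sc 5 := by unfold sc; omega
  have m1x : 4 * m + 1 ≠ 4 * x := by omega
  have m24 : 4 * m + 2 ≠ sc 4 := by unfold sc; omega
  have m25 : 4 * m + 2 ≠ sc 5 := by unfold sc; omega
  have m2x : 4 * m + 2 ≠ 4 * x := by omega
  unfold cntF
  have hw' : ∀ (a b c : A) (y : ℕ), y % 4 ≠ 3 → y ≠ 4 * x →
      (Function.update (Function.update (Function.update w (4 * x) a) (sc 4) b) (sc 5) c) y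
        = w y := by
    intro a b c y hy hy'
    rw [Function.update_of_ne (fun h => hy (by rw [h]; exact scm 5)),
      Function.update_of_ne (fun h => hy (by rw [h]; exact scm 4)),
      Function.update_of_ne hy']
  have hmain : ∀ a b c : A, ((FP.and (maxF (4 * x))
      (FP.and (FP.ifp 3 [sc 1, sc 2, sc 3] (cBody x φ) [4 * x, sc 4, sc 5])
      (FP.or (FP.and φ (suc2 (sc 4) (sc 5) (4 * m + 1) (4 * m + 2)))
        (FP.and (FP.neg φ) (FP.and (eqL (sc 4) (4 * m + 1)) (eqL (sc 5) (4 * m + 2))))))).eval 𝔄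
        (Function.update (Function.update (Function.update w (4 * x) a) (sc 4) b) (sc 5) c) γ ↔
      (Q.ρ a : ℕ) + 1 = Q.q ∧ Q.val b c = cntBelow Q.q p (Q.ρ a) ∧
        Q.val (w (4 * m + 1)) (w (4 * m + 2)) = Q.val b c + if p (Q.ρ a) then 1 else 0) := by
    intro a b c
    rw [eval_and, eval_and, ev_maxF Q _ _ _ x0, hfix _ _ a b c (hw' a b c)
      (by simp [Function.update_of_ne x5, Function.update_of_ne x4, Function.update_of_ne s45])]
    rw [Function.update_of_ne x5, Function.update_of_ne x4, Function.update_self]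
    refine and_congr_right fun _ => and_congr_right fun _ => ?_
    rw [eval_or, eval_and, eval_and, eval_and, eval_neg, ev_suc2 Q _ _ _ _ _ _ s40 s50 m1 m2,
      ev_eqL Q, ev_eqL Q, hφ _ _ (hw' a b c) (fun _ => rfl)]
    simp only [Function.update_self, Function.update_of_ne s45, Function.update_of_ne m14,
      Function.update_of_ne m15, Function.update_of_ne m1x, Function.update_of_ne m24,
      Function.update_of_ne m25, Function.update_of_ne m2x, Function.update_of_ne x5,
      Function.update_of_ne x4]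
    split_ifs with hp
    · simp [hp]
    · simp only [hp, false_and, not_false_eq_true, true_and, false_or, add_zero]
      constructor
      · rintro ⟨h1, h2⟩
        unfold OQ.val
        rw [h1, h2]
      · intro h
        have := val_inj h
        exact ⟨this.1.symm, this.2.symm⟩
  simp only [eval_ex]
  rw [exists_congr (fun a => exists_congr (fun b => exists_congr (fun c => hmain a b c)))]
  constructor
  · rintro ⟨a, b, c, h1, h2, h3⟩
    rw [h3, h2, ← cntBelow_succ, h1, cntBelow_top]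
  · intro h
    obtain ⟨a, ha⟩ := Q.surj ⟨Q.q - 1, by omega⟩
    obtain ⟨b, c, hbc⟩ := exists_val (Q := Q) hq (cntBelow Q.q p (Q.q - 1))
      ((cntBelow_le _ _ _).trans (by omega))
    refine ⟨a, b, c, by rw [ha]; simp only; omega, by rw [ha, hbc], ?_⟩
    rw [← h, hbc, ha]
    have := cntBelow_succ Q.q p ⟨Q.q - 1, by omega⟩
    simp only at this
    rw [← this, ← cntBelow_top]
    congr 1
    omega

/-- The translation theorem: an FPC formula over the ordered quotient is equivalent to an FP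
formula over the structure, if the quotient has at least two elements. -/
theorem trans (hq : 2 ≤ Q.q) : ∀ (φ : FPC σ.ord) (v : ℕ → Fin Q.q) (ν : ℕ → ℕ)
    (β : ℕ → List Bool → List (Fin Q.q ⊕ ℕ) → Prop) (w : ℕ → A) (γ : ℕ → List A → Prop),
    Env Q v ν β w γ → (φ.eval (Q.str.ord (fun a b => a < b)) v ν β ↔ (T φ).eval 𝔄 w γ)
  | .rel none xs, v, ν, β, w, γ, h => by
    show v (xs (0 : Fin 2)) < v (xs (1 : Fin 2)) ↔ (TR none xs : FP σ).eval 𝔄 w γ
    rw [TR, ev_lt Q, h.e, h.e, Fin.lt_def]
  | .rel (some R) xs, v, ν, β, w, γ, h => by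
    show (∃ t : Fin (σ.ar R) → A, 𝔄.rel R t ∧ ∀ j, Q.ρ (t j) = v (xs j)) ↔
      (TR (some R) xs : FP σ).eval 𝔄 w γ
    rw [TR, eval_exB]
    refine exists_congr fun t => ?_
    simp only [eval_and, eval_rel, eval_bigAnd, List.mem_map, List.mem_finRange,
      true_and, forall_exists_index, forall_apply_eq_imp_iff, ev_eqL Q, blk_apply w tv_inj]
    refine and_congr_right fun _ => forall_congr' fun j => ?_
    rw [blk_of_ne w tv (4 * xs j) (fun k => by unfold tv sc; omega), h.e]
  | .eq x y, v, ν, β, w, γ, h => by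
    show v x = v y ↔ _
    rw [T, ev_eqL Q, h.e, h.e]
  | .le m n, v, ν, β, w, γ, h => by
    show ν m ≤ ν n ↔ _
    rw [T, ev_le2 Q, h.n, h.n]
  | .app X ts, v, ν, β, w, γ, h => by
    show β X (sorts ts) (ts.map (Sum.map v ν)) ↔ γ (so X (sorts ts)) ((flat ts).map w)
    exact h.r X (sorts ts) _ _ (sorts_map v ν ts) (rep_map h ts)
  | .neg φ, v, ν, β, w, γ, h => not_congr (trans hq φ v ν β w γ h)
  | .and φ ψ, v, ν, β, w, γ, h => and_congr (trans hq φ v ν β w γ h) (trans hq ψ v ν β w γ h)
  | .exE x φ, v, ν, β, w, γ, h => by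
    show (∃ a : Fin Q.q, _) ↔ (∃ a : A, _)
    constructor
    · rintro ⟨c, hc⟩
      obtain ⟨a, rfl⟩ := Q.surj c
      exact ⟨a, (trans hq φ _ _ _ _ _ (h.updElem x a)).1 hc⟩
    · rintro ⟨a, ha⟩
      exact ⟨Q.ρ a, (trans hq φ _ _ _ _ _ (h.updElem x a)).2 ha⟩
  | .exN m φ, v, ν, β, w, γ, h => by
    show (∃ k : ℕ, k ≤ Nat.card (Fin Q.q) ∧ _) ↔ (∃ a : A, ∃ b : A, _ ∧ _)
    rw [Nat.card_eq_fintype_card, Fintype.card_fin]
    have hv : ∀ a b : A, (valF (4 * m + 1) (4 * m + 2) : FP σ).eval 𝔄
        (Function.update (Function.update w (4 * m + 1) a) (4 * m + 2) b) γ ↔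
        Q.val a b ≤ Q.q := by
      intro a b
      rw [ev_valF Q _ _ hq _ _ (by unfold sc; omega) (by unfold sc; omega) (by unfold sc; omega),
        Function.update_self, Function.update_of_ne (by omega), Function.update_self]
    constructor
    · rintro ⟨k, hk, hc⟩
      obtain ⟨a, b, rfl⟩ := exists_val (Q := Q) hq k hk
      exact ⟨a, b, (hv a b).2 hk, (trans hq φ _ _ _ _ _ (h.updNum m a b)).1 hc⟩
    · rintro ⟨a, b, h1, h2⟩
      exact ⟨Q.val a b, (hv a b).1 h1, (trans hq φ _ _ _ _ _ (h.updNum m a b)).2 h2⟩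
  | .cnt x φ m, v, ν, β, w, γ, h => by
    show {c : Fin Q.q | _}.ncard = ν m ↔ (cntF x (T φ) m).eval 𝔄 w γ
    rw [ev_cnt (Q := Q) hq x m (T φ) (fun c =>
      φ.eval (Q.str.ord (fun a b => a < b)) (Function.update v x c) ν β) w γ, h.n]
    intro w' γ' h1 h2
    exact (trans hq φ _ _ _ _ _ (h.updE' x _ w' γ' h1 rfl h2)).symm
  | .ifp X ys φ ts, v, ν, β, w, γ, h => by
    rw [T]
    split_ifs with hs
    · show (∃ n, stage _ n (ts.map (Sum.map v ν))) ↔ (∃ n, stage _ n ((flat ts).map w))
      refine exists_congr fun n => ?_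
      have key : ∀ (n : ℕ) (u : List (Fin Q.q ⊕ ℕ)) (l : List A), sorts u = sorts ys →
          Rep Q u l →
          (stage (fun P l => Fits (Nat.card (Fin Q.q)) ys l ∧
            φ.eval (Q.str.ord (fun a b => a < b)) (updE v ys l) (updN ν ys l)
              (Function.update β X (Function.update (β X) (sorts ys) P))) n u ↔
          stage (fun P l => (flat ys).Nodup ∧ l.length = (flat ys).length ∧
            (FP.and (valA ys) (T φ)).eval 𝔄 (upd w (flat ys) l)
              (Function.update γ (so X (sorts ys)) P)) n l) := by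
        intro n
        induction n with
        | zero => intro u l _ _; exact Iff.rfl
        | succ n ih =>
          intro u l hu hr
          refine or_congr (ih u l hu hr) ?_
          have henv := (h.updList ys u l hu hr).updRel X (sorts ys) _ _ ih
          have ht := trans hq φ _ _ _ _ _ henv
          have hN : Nat.card (Fin Q.q) = Q.q := by
            rw [Nat.card_eq_fintype_card, Fintype.card_fin]
          constructor
          · rintro ⟨⟨h1, h2, h3⟩, h4⟩
            refine ⟨flat_nodup ys h1, rep_length ys u l hu hr, ?_, ht.1 h4⟩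
            rw [hN] at h3
            refine (ev_valA hq _ _ ys).2 (fun m hm => ?_)
            rw [henv.n]
            exact (updN_range Q.q ys ν u h1 hu).2 h3 m hm
          · rintro ⟨h1, h2, h3, h4⟩
            refine ⟨⟨flat_nodup' ys h1, hu, ?_⟩, ht.2 h4⟩
            rw [hN]
            refine (updN_range Q.q ys ν u (flat_nodup' ys h1) hu).1 (fun m hm => ?_)
            have := (ev_valA hq _ _ ys).1 h3 m hm
            rw [henv.n] at this
            exact this
      exact key n _ _ ((sorts_map v ν ts).trans hs) (rep_map h ts)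
    · rw [eval_ff]
      show (∃ n, stage _ n (ts.map (Sum.map v ν))) ↔ False
      rw [iff_false]
      rintro ⟨n, hn⟩
      induction n with
      | zero => exact hn
      | succ n ih =>
        rcases hn with hn | ⟨⟨_, hn, _⟩, _⟩
        · exact ih hn
        · exact hs ((sorts_map v ν ts).symm.trans hn)

end Pool.Agent.Work.MP_8dbde4_lc.TS
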