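import Pool.Agent.Work.MP_8dbde4_lc.TS.Defs

/-!
# The canonical ordered quotient of a finite structure (semantic part)
-/

namespace Pool.Agent.Work.MP_8dbde4_lc.TS

variable {σ : Sig} {A : Type}

/-- Incomparability. -/
def Eqv (L : A → A → Prop) (a b : A) : Prop := ¬ L a b ∧ ¬ L b a

/-- Up to incomparability, `c` is a tuple of `R` with `i`-th entry `a`. -/
def Has (𝔄 : Str σ A) (L : A → A → Prop) (R : σ.S) (i : Fin (σ.ar R)) (a : A)
    (c : Fin (σ.ar R) → A) : Prop :=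
  ∃ t : Fin (σ.ar R) → A, (𝔄.rel R t ∧ t i = a) ∧ ∀ j, Eqv L (t j) (c j)

/-- Lexicographic comparison of tuples. -/
def LexL (L : A → A → Prop) {n : ℕ} (d c : Fin n → A) : Prop :=
  ∃ j, L (d j) (c j) ∧ ∀ i, i < j → Eqv L (d i) (c i)

/-- Comparison of the signatures of `a` and `b` at one position. -/
def SigLess (𝔄 : Str σ A) (L : A → A → Prop) (R : σ.S) (i : Fin (σ.ar R)) (a b : A) : Prop :=
  ∃ c, (Has 𝔄 L R i b c ∧ ¬ Has 𝔄 L R i a c) ∧
    ∀ d, (Has 𝔄 L R i a d ∧ ¬ Has 𝔄 L R i b d) → LexL L d c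

/-- Comparison of the signatures of `a` and `b` at the positions of a list. -/
def CLess (𝔄 : Str σ A) (L : A → A → Prop) : List (Σ R : σ.S, Fin (σ.ar R)) → A → A → Prop
  | [], _, _ => False
  | p :: ps, a, b => SigLess 𝔄 L p.1 p.2 a b ∨
      (¬ SigLess 𝔄 L p.1 p.2 a b ∧ ¬ SigLess 𝔄 L p.1 p.2 b a ∧ CLess 𝔄 L ps a b)

/-- The list of all positions. -/
noncomputable def pos (σ : Sig) : List (Σ R : σ.S, Fin (σ.ar R)) := Finset.univ.toList

/-- The stages of the refinement. -/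
def Lst (𝔄 : Str σ A) : ℕ → A → A → Prop
  | 0 => fun _ _ => False
  | n + 1 => fun a b => Lst 𝔄 n a b ∨ (¬ Lst 𝔄 n b a ∧ CLess 𝔄 (Lst 𝔄 n) (pos σ) a b)

/-- `L` is given by a rank function. -/
def Ranked (L : A → A → Prop) : Prop := ∃ r : A → ℕ, ∀ a b, L a b ↔ r a < r b

lemma ranked_of_linear [Finite A] {α : Type*} [LinearOrder α] (f : A → α)
    {L : A → A → Prop} (h : ∀ a b, L a b ↔ f a < f b) : Ranked L := by
  classical
  have : Fintype A := Fintype.ofFinite A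
  refine ⟨fun a => ((Finset.univ.image f).filter (· < f a)).card, fun a b => ?_⟩
  rw [h]
  constructor
  · intro hab
    apply Finset.card_lt_card
    rw [Finset.ssubset_iff_of_subset]
    · refine ⟨f a, ?_, ?_⟩
      · simp [hab]
      · simp
    · intro x hx
      simp only [Finset.mem_filter] at hx ⊢
      exact ⟨hx.1, hx.2.trans hab⟩
  · intro hab
    by_contra hba
    rw [not_lt] at hba
    have : ((Finset.univ.image f).filter (· < f b)).card ≤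
        ((Finset.univ.image f).filter (· < f a)).card := by
      apply Finset.card_le_card
      intro x hx
      simp only [Finset.mem_filter] at hx ⊢
      exact ⟨hx.1, hx.2.trans_le hba⟩
    exact absurd hab (not_lt.2 this)

lemma ranked_comb [Finite A] {P Q : A → A → Prop} (hP : Ranked P) (hQ : Ranked Q) :
    Ranked (fun a b => P a b ∨ (¬ P a b ∧ ¬ P b a ∧ Q a b)) := by
  obtain ⟨f, hf⟩ := hP
  obtain ⟨g, hg⟩ := hQ
  refine ranked_of_linear (fun a => toLex (f a, g a)) (fun a b => ?_)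
  rw [hf, hf, hg, Prod.Lex.toLex_lt_toLex]
  simp only
  constructor
  · rintro (h | ⟨h1, h2, h3⟩)
    · exact Or.inl h
    · exact Or.inr ⟨by omega, h3⟩
  · rintro (h | ⟨h1, h2⟩)
    · exact Or.inl h
    · exact Or.inr ⟨by omega, by omega, h2⟩

/-- The signature of `a` at a position, as a finite set of tuples of ranks. -/
def sigSet (𝔄 : Str σ A) (r : A → ℕ) (R : σ.S) (i : Fin (σ.ar R)) (a : A) :
    Set (Lex (Fin (σ.ar R) → ℕ)) :=
  {x | ∃ t : Fin (σ.ar R) → A, (𝔄.rel R t ∧ t i = a) ∧ x = toLex (fun j => r (t j))}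

lemma sigSet_finite [Finite A] (𝔄 : Str σ A) (r : A → ℕ) (R : σ.S) (i : Fin (σ.ar R)) (a : A) :
    (sigSet 𝔄 r R i a).Finite := by
  apply Set.Finite.subset (Set.finite_range (fun t : Fin (σ.ar R) → A => toLex (fun j => r (t j))))
  rintro x ⟨t, _, rfl⟩
  exact ⟨t, rfl⟩

lemma eqv_iff {L : A → A → Prop} {r : A → ℕ} (hr : ∀ a b, L a b ↔ r a < r b) (a b : A) :
    Eqv L a b ↔ r a = r b := by
  unfold Eqv
  rw [hr, hr]
  omega

lemma has_iff {𝔄 : Str σ A} {L : A → A → Prop} {r : A → ℕ} (hr : ∀ a b, L a b ↔ r a < r b)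
    (R : σ.S) (i : Fin (σ.ar R)) (a : A) (c : Fin (σ.ar R) → A) :
    Has 𝔄 L R i a c ↔ toLex (fun j => r (c j)) ∈ sigSet 𝔄 r R i a := by
  unfold Has sigSet
  simp only [Set.mem_ofPred_eq]
  refine exists_congr fun t => and_congr_right fun _ => ?_
  rw [EmbeddingLike.apply_eq_iff_eq, funext_iff]
  refine forall_congr' fun j => ?_
  rw [eqv_iff hr]
  exact eq_comm

lemma lexL_iff {L : A → A → Prop} {r : A → ℕ} (hr : ∀ a b, L a b ↔ r a < r b) {n : ℕ}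
    (d c : Fin n → A) :
    LexL L d c ↔ toLex (fun j => r (d j)) < toLex (fun j => r (c j)) := by
  unfold LexL
  constructor
  · rintro ⟨j, h1, h2⟩
    refine ⟨j, fun i hi => ?_, ?_⟩
    · exact (eqv_iff hr _ _).1 (h2 i hi)
    · exact (hr _ _).1 h1
  · rintro ⟨j, h1, h2⟩
    refine ⟨j, (hr _ _).2 h2, fun i hi => (eqv_iff hr _ _).2 (h1 i hi)⟩

lemma sigLess_iff [Finite A] {𝔄 : Str σ A} {L : A → A → Prop} {r : A → ℕ}
    (hr : ∀ a b, L a b ↔ r a < r b) (R : σ.S) (i : Fin (σ.ar R)) (a b : A) :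
    SigLess 𝔄 L R i a b ↔
      toColex (sigSet_finite 𝔄 r R i a).toFinset <
        toColex (sigSet_finite 𝔄 r R i b).toFinset := by
  rw [Finset.Colex.toColex_lt_toColex_iff_exists_forall_lt]
  unfold SigLess
  simp only [has_iff hr, lexL_iff hr, Set.Finite.mem_toFinset]
  constructor
  · rintro ⟨c, ⟨h1, h2⟩, h3⟩
    refine ⟨_, h1, h2, ?_⟩
    rintro x hx1 hx2
    obtain ⟨t, ht, rfl⟩ := hx1
    exact h3 t ⟨⟨t, ht, rfl⟩, hx2⟩
  · rintro ⟨x, h1, h2, h3⟩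
    obtain ⟨t, ht, rfl⟩ := h1
    exact ⟨t, ⟨⟨t, ht, rfl⟩, h2⟩, fun d hd => h3 _ hd.1 hd.2⟩

lemma ranked_sigLess [Finite A] {𝔄 : Str σ A} {L : A → A → Prop} (hL : Ranked L)
    (R : σ.S) (i : Fin (σ.ar R)) : Ranked (SigLess 𝔄 L R i) := by
  obtain ⟨r, hr⟩ := hL
  exact ranked_of_linear _ (fun a b => sigLess_iff hr R i a b)

lemma ranked_cLess [Finite A] {𝔄 : Str σ A} {L : A → A → Prop} (hL : Ranked L) :
    ∀ ps : List (Σ R : σ.S, Fin (σ.ar R)), Ranked (CLess 𝔄 L ps)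
  | [] => ⟨fun _ => 0, fun a b => by simp [CLess]⟩
  | p :: ps => ranked_comb (ranked_sigLess hL p.1 p.2) (ranked_cLess hL ps)

lemma ranked_lst [Finite A] (𝔄 : Str σ A) : ∀ n : ℕ, Ranked (Lst 𝔄 n)
  | 0 => ⟨fun _ => 0, fun a b => by simp [Lst]⟩
  | n + 1 => by
    have h := ranked_comb (ranked_lst 𝔄 n) (ranked_cLess (𝔄 := 𝔄) (ranked_lst 𝔄 n) (pos σ))
    obtain ⟨r, hr⟩ := h
    refine ⟨r, fun a b => ?_⟩
    rw [← hr]
    show (Lst 𝔄 n a b ∨ (¬ Lst 𝔄 n b a ∧ CLess 𝔄 (Lst 𝔄 n) (pos σ) a b)) ↔ _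
    tauto

lemma lst_mono (𝔄 : Str σ A) {m n : ℕ} (h : m ≤ n) {a b : A} (hab : Lst 𝔄 m a b) :
    Lst 𝔄 n a b := by
  induction h with
  | refl => exact hab
  | step _ ih => exact Or.inl ih

/-- The stages become stationary. -/
lemma lst_stable [Finite A] (𝔄 : Str σ A) : ∃ n, ∀ m a b, Lst 𝔄 m a b → Lst 𝔄 n a b := by
  have hmono : Monotone (fun n => {p : A × A | Lst 𝔄 n p.1 p.2}) := by
    intro m n h p hp
    exact lst_mono 𝔄 h hp
  obtain ⟨n, hn⟩ := WellFoundedGT.monotone_chain_condition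
    (⟨fun n => {p : A × A | Lst 𝔄 n p.1 p.2}, hmono⟩ : ℕ →o Set (A × A))
  refine ⟨n, fun m a b h => ?_⟩
  rcases le_total n m with hm | hm
  · have := hn m hm
    have h2 : (a, b) ∈ {p : A × A | Lst 𝔄 m p.1 p.2} := h
    have h3 : {p : A × A | Lst 𝔄 n p.1 p.2} = {p : A × A | Lst 𝔄 m p.1 p.2} := this
    rw [← h3] at h2
    exact h2
  · exact lst_mono 𝔄 hm h

lemma cLess_eq [Finite A] {𝔄 : Str σ A} {L : A → A → Prop} {r : A → ℕ}
    (hr : ∀ a b, L a b ↔ r a < r b) {a b : A} :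
    ∀ (ps : List (Σ R : σ.S, Fin (σ.ar R))), ¬ CLess 𝔄 L ps a b → ¬ CLess 𝔄 L ps b a →
      ∀ p ∈ ps, sigSet 𝔄 r p.1 p.2 a = sigSet 𝔄 r p.1 p.2 b
  | [], _, _, p, hp => by simp at hp
  | p :: ps, h1, h2, p', hp' => by
    have e1 : ¬ SigLess 𝔄 L p.1 p.2 a b := fun h => h1 (Or.inl h)
    have e2 : ¬ SigLess 𝔄 L p.1 p.2 b a := fun h => h2 (Or.inl h)
    rcases List.mem_cons.1 hp' with rfl | hp'
    · rw [sigLess_iff hr] at e1 e2
      have := le_antisymm (not_lt.1 e2) (not_lt.1 e1)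
      have h3 := toColex_inj.1 this
      have h4 := congrArg (fun s : Finset _ => (s : Set (Lex (Fin (σ.ar p'.1) → ℕ)))) h3
      simpa using h4
    · exact cLess_eq hr ps (fun h => h1 (Or.inr ⟨e1, e2, h⟩)) (fun h => h2 (Or.inr ⟨e2, e1, h⟩))
        p' hp'

/-- The canonical ordered quotient. -/
structure OQ (𝔄 : Str σ A) where
  q : ℕ
  ρ : A → Fin q
  surj : Function.Surjective ρ
  lst : ∀ a b, (∃ n, Lst 𝔄 n a b) ↔ ρ a < ρ b
  bisim : ∀ (R : σ.S) (t : Fin (σ.ar R) → A), 𝔄.rel R t → ∀ (i : Fin (σ.ar R)) (b : A),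
    ρ (t i) = ρ b → ∃ t' : Fin (σ.ar R) → A, 𝔄.rel R t' ∧ t' i = b ∧ ∀ j, ρ (t' j) = ρ (t j)

lemma exists_oq [Finite A] (𝔄 : Str σ A) : Nonempty (OQ 𝔄) := by
  classical
  have : Fintype A := Fintype.ofFinite A
  obtain ⟨n, hn⟩ := lst_stable 𝔄
  obtain ⟨r, hr⟩ := ranked_lst 𝔄 n
  -- the dense rank
  set I : Finset ℕ := Finset.univ.image r with hI
  let e : Fin I.card ≃o I := I.orderIsoOfFin rfl
  let ρ : A → Fin I.card := fun a => e.symm ⟨r a, by simp [hI]⟩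
  have hρ : ∀ a b, ρ a < ρ b ↔ r a < r b := by
    intro a b
    simp only [ρ, OrderIso.lt_iff_lt, Subtype.mk_lt_mk]
  have hρe : ∀ a b, ρ a = ρ b ↔ r a = r b := by
    intro a b
    simp only [ρ, EmbeddingLike.apply_eq_iff_eq, Subtype.mk.injEq]
  refine ⟨⟨I.card, ρ, ?_, ?_, ?_⟩⟩
  · intro c
    have h1 : ((e c : I) : ℕ) ∈ I := (e c).2
    obtain ⟨a, _, ha⟩ := Finset.mem_image.1 h1
    refine ⟨a, ?_⟩
    simp only [ρ]
    rw [OrderIso.symm_apply_eq]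
    exact Subtype.ext ha
  · intro a b
    rw [hρ, ← hr]
    exact ⟨fun ⟨m, hm⟩ => hn m a b hm, fun h => ⟨n, h⟩⟩
  · intro R t ht i b hb
    rw [hρe] at hb
    have key : ∀ a b : A, r a = r b → ¬ CLess 𝔄 (Lst 𝔄 n) (pos σ) a b := by
      intro a b hab hc
      have h1 : ¬ Lst 𝔄 n b a := by rw [hr]; omega
      have h2 : Lst 𝔄 (n + 1) a b := Or.inr ⟨h1, hc⟩
      have h3 := hn _ _ _ h2
      rw [hr] at h3
      omega
    have h := cLess_eq hr (pos σ) (key _ _ hb) (key _ _ hb.symm) ⟨R, i⟩ (by simp [pos])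
    have h1 : toLex (fun j => r (t j)) ∈ sigSet 𝔄 r R i (t i) := ⟨t, ⟨ht, rfl⟩, rfl⟩
    have h2 : toLex (fun j => r (t j)) ∈ sigSet 𝔄 r R i b := by
      have h' : sigSet 𝔄 r R i (t i) = sigSet 𝔄 r R i b := h
      rw [← h']
      exact h1
    obtain ⟨t', ⟨ht', hi⟩, he⟩ := h2
    refine ⟨t', ht', hi, fun j => ?_⟩
    rw [hρe]
    rw [EmbeddingLike.apply_eq_iff_eq, funext_iff] at he
    exact (he j).symm

/-- The structure on the quotient. -/
def OQ.str {𝔄 : Str σ A} (Q : OQ 𝔄) : Str σ (Fin Q.q) where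
  rel R u := ∃ t : Fin (σ.ar R) → A, 𝔄.rel R t ∧ ∀ j, Q.ρ (t j) = u j

end Pool.Agent.Work.MP_8dbde4_lc.TS
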