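import Pool.Agent.Work.MP_8dbde4_lc.TS.Final

/-!
# Removal of free relation variables, and substitution of formulas for relation symbols
-/

namespace Pool.Agent.Work.MP_8dbde4_lc.TS

open Pool.Agent.Work.MP_8dbde4_lc.TS.FP

variable {σ : Sig} {A : Type}

/-- Replace the free relation variables (outside the list `L`) by the empty relation. -/
def kill : List ℕ → FP σ → FP σ
  | _, .rel R xs => .rel R xs
  | _, .eq x y => .eq x y
  | L, .app X xs => if X ∈ L then .app X xs else FP.ff
  | L, .neg φ => .neg (kill L φ)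
  | L, .and φ ψ => .and (kill L φ) (kill L ψ)
  | L, .ex x φ => .ex x (kill L φ)
  | L, .ifp X ys φ xs => .ifp X ys (kill (X :: L) φ) xs

lemma eval_kill (𝔄 : Str σ A) : ∀ (φ : FP σ) (L : List ℕ) (v : ℕ → A) (β : ℕ → List A → Prop),
    (kill L φ).eval 𝔄 v β ↔ φ.eval 𝔄 v (fun X => if X ∈ L then β X else fun _ => False)
  | .rel R xs, L, v, β => Iff.rfl
  | .eq x y, L, v, β => Iff.rfl
  | .app X xs, L, v, β => by
    rw [kill]
    split_ifs with h
    · simp [h]
    · simp [h]
  | .neg φ, L, v, β => not_congr (eval_kill 𝔄 φ L v β)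
  | .and φ ψ, L, v, β => and_congr (eval_kill 𝔄 φ L v β) (eval_kill 𝔄 ψ L v β)
  | .ex x φ, L, v, β => exists_congr fun a => eval_kill 𝔄 φ L _ β
  | .ifp X ys φ xs, L, v, β => by
    show (∃ n, stage _ n (xs.map v)) ↔ (∃ n, stage _ n (xs.map v))
    have key : (fun (P : List A → Prop) l => ys.Nodup ∧ l.length = ys.length ∧
        (kill (X :: L) φ).eval 𝔄 (upd v ys l) (Function.update β X P)) =
        (fun (P : List A → Prop) l => ys.Nodup ∧ l.length = ys.length ∧
        φ.eval 𝔄 (upd v ys l) (Function.update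
          (fun Y => if Y ∈ L then β Y else fun _ => False) X P)) := by
      funext P l
      rw [eval_kill 𝔄 φ (X :: L)]
      have : (fun Y => if Y ∈ X :: L then Function.update β X P Y else fun _ => False) =
          Function.update (fun Y => if Y ∈ L then β Y else fun _ => False) X P := by
        funext Y
        by_cases hY : Y = X
        · subst hY
          simp
        · simp [hY]
      rw [this]
    exact exists_congr fun n => by rw [key]

/-- Substitute the formulas `ψ R` (with argument variables `z 0, z 1, ...`) for the relation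
symbols `R`, and rename the variables by `g` and `G`. -/
def sub (ψ : σ.S → FP σ) (g G z : ℕ → ℕ) : FP σ → FP σ
  | .rel R xs => exB z (σ.ar R) (.and
      (bigAnd ((List.finRange (σ.ar R)).map (fun j : Fin (σ.ar R) => FP.eq (z j) (g (xs j)))))
      (ψ R))
  | .eq x y => .eq (g x) (g y)
  | .app X xs => .app (G X) (xs.map g)
  | .neg φ => .neg (sub ψ g G z φ)
  | .and φ χ => .and (sub ψ g G z φ) (sub ψ g G z χ)
  | .ex x φ => .ex (g x) (sub ψ g G z φ)
  | .ifp X ys φ xs => .ifp (G X) (ys.map g) (sub ψ g G z φ) (xs.map g)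

lemma update_comp {g : ℕ → ℕ} (hg : Function.Injective g) {C : Type*} (v : ℕ → C) (x : ℕ) (a : C) :
    (fun y => Function.update v (g x) a (g y)) = Function.update (fun y => v (g y)) x a := by
  funext y
  by_cases h : y = x
  · subst h; simp
  · rw [Function.update_of_ne (fun h' => h (hg h')), Function.update_of_ne h]

lemma upd_comp {g : ℕ → ℕ} (hg : Function.Injective g) : ∀ (ys : List ℕ) (l : List A) (v : ℕ → A),
    (fun y => upd v (ys.map g) l (g y)) = upd (fun y => v (g y)) ys l
  | [], l, v => by cases l <;> rfl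
  | y :: ys, [], v => rfl
  | y :: ys, a :: l, v => by
    show (fun x => upd (Function.update v (g y) a) (ys.map g) l (g x)) = _
    rw [upd_comp hg ys l]
    show upd (fun x => Function.update v (g y) a (g x)) ys l = _
    rw [update_comp hg]
    rfl

lemma upd_off {g : ℕ → ℕ} : ∀ (ys : List ℕ) (l : List A) (v : ℕ → A) (x : ℕ),
    (∀ y, g y ≠ x) → upd v (ys.map g) l x = v x
  | [], l, v, x, _ => by cases l <;> rfl
  | y :: ys, [], v, x, _ => rfl
  | y :: ys, a :: l, v, x, h => by
    show upd (Function.update v (g y) a) (ys.map g) l x = v x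
    rw [upd_off ys l _ x h, Function.update_of_ne (h y).symm]

/-- The meaning of a substituted formula. -/
theorem eval_sub (𝔄 𝔄' : Str σ A) (ψ : σ.S → FP σ) {g G z : ℕ → ℕ} (hg : Function.Injective g)
    (hG : Function.Injective G) (hz : Function.Injective z) (hgz : ∀ i j, g i ≠ z j)
    (v₀ : ℕ → A) (β₀ : ℕ → List A → Prop)
    (hψ : ∀ (v : ℕ → A) (β : ℕ → List A → Prop), (∀ x, (∀ y, g y ≠ x) → v x = v₀ x) →
      (∀ X, (∀ Y, G Y ≠ X) → β X = β₀ X) → ∀ (R : σ.S) (t : Fin (σ.ar R) → A),
      ((ψ R).eval 𝔄 (blk v z (σ.ar R) t) β ↔ 𝔄'.rel R t)) :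
    ∀ (φ : FP σ) (v : ℕ → A) (β : ℕ → List A → Prop), (∀ x, (∀ y, g y ≠ x) → v x = v₀ x) →
      (∀ X, (∀ Y, G Y ≠ X) → β X = β₀ X) →
      ((sub ψ g G z φ).eval 𝔄 v β ↔ φ.eval 𝔄' (fun x => v (g x)) (fun X => β (G X)))
  | .rel R xs, v, β, hv, hβ => by
    rw [sub, eval_exB]
    show _ ↔ 𝔄'.rel R (fun i => v (g (xs i)))
    simp only [eval_and, eval_bigAnd, List.mem_map, List.mem_finRange, true_and,
      forall_exists_index, forall_apply_eq_imp_iff, eval_eq, blk_apply v hz]
    constructor
    · rintro ⟨t, h1, h2⟩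
      rw [hψ v β hv hβ] at h2
      have : t = fun i => v (g (xs i)) := by
        funext i
        rw [h1 i, blk_of_ne v z _ (fun j => (hgz _ _).symm)]
      rwa [this] at h2
    · intro h
      refine ⟨fun i => v (g (xs i)), fun i => ?_, (hψ v β hv hβ R _).2 h⟩
      rw [blk_of_ne v z _ (fun j => (hgz _ _).symm)]
  | .eq x y, v, β, hv, hβ => Iff.rfl
  | .app X xs, v, β, hv, hβ => by
    show β (G X) ((xs.map g).map v) ↔ β (G X) (xs.map (fun x => v (g x)))
    rw [List.map_map]
    rfl
  | .neg φ, v, β, hv, hβ =>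
    not_congr (eval_sub 𝔄 𝔄' ψ hg hG hz hgz v₀ β₀ hψ φ v β hv hβ)
  | .and φ χ, v, β, hv, hβ =>
    and_congr (eval_sub 𝔄 𝔄' ψ hg hG hz hgz v₀ β₀ hψ φ v β hv hβ)
      (eval_sub 𝔄 𝔄' ψ hg hG hz hgz v₀ β₀ hψ χ v β hv hβ)
  | .ex x φ, v, β, hv, hβ => by
    show (∃ a, (sub ψ g G z φ).eval 𝔄 (Function.update v (g x) a) β) ↔
      (∃ a, φ.eval 𝔄' (Function.update (fun x => v (g x)) x a) (fun X => β (G X)))
    refine exists_congr fun a => ?_
    rw [eval_sub 𝔄 𝔄' ψ hg hG hz hgz v₀ β₀ hψ φ _ β (fun y hy => ?_) hβ, update_comp hg]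
    rw [Function.update_of_ne (hy x).symm, hv y hy]
  | .ifp X ys φ xs, v, β, hv, hβ => by
    show (∃ n, stage _ n ((xs.map g).map v)) ↔ (∃ n, stage _ n (xs.map (fun x => v (g x))))
    have key : (fun (P : List A → Prop) l => (ys.map g).Nodup ∧ l.length = (ys.map g).length ∧
        (sub ψ g G z φ).eval 𝔄 (upd v (ys.map g) l) (Function.update β (G X) P)) =
        (fun (P : List A → Prop) l => ys.Nodup ∧ l.length = ys.length ∧
        φ.eval 𝔄' (upd (fun x => v (g x)) ys l)
          (Function.update (fun X => β (G X)) X P)) := by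
      funext P l
      rw [eval_sub 𝔄 𝔄' ψ hg hG hz hgz v₀ β₀ hψ φ _ _ (fun y hy => ?_) (fun Y hY => ?_),
        upd_comp hg, update_comp hG, List.nodup_map_iff hg, List.length_map]
      · rw [upd_off ys l v y hy, hv y hy]
      · rw [Function.update_of_ne (hY X).symm, hβ Y hY]
    rw [List.map_map]
    exact exists_congr fun n => by rw [key]; rfl

end Pool.Agent.Work.MP_8dbde4_lc.TS
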