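import Pool.Agent.Work.MP_8dbde4_lc.TS.Form

/-!
# Translation of FPC formulas over the ordered quotient into FP formulas
-/

namespace Pool.Agent.Work.MP_8dbde4_lc.TS

variable {σ : Sig} {A : Type}

namespace FP

noncomputable def eqL (x y : ℕ) : FP σ := and (neg (lt x y)) (neg (lt y x))
noncomputable def minF (x : ℕ) : FP σ := neg (ex (sc 0) (lt (sc 0) x))
noncomputable def maxF (x : ℕ) : FP σ := neg (ex (sc 0) (lt x (sc 0)))
noncomputable def sucF (x y : ℕ) : FP σ :=
  and (lt x y) (neg (ex (sc 0) (and (lt x (sc 0)) (lt (sc 0) y))))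
noncomputable def suc2 (x₁ x₂ y₁ y₂ : ℕ) : FP σ :=
  or (and (eqL x₁ y₁) (sucF x₂ y₂)) (and (sucF x₁ y₁) (and (maxF x₂) (minF y₂)))
noncomputable def le2 (x₁ x₂ y₁ y₂ : ℕ) : FP σ :=
  or (lt x₁ y₁) (and (eqL x₁ y₁) (neg (lt y₂ x₂)))
/-- the pair `(x₁, x₂)` codes a number `≤ q` -/
noncomputable def valF (x₁ x₂ : ℕ) : FP σ :=
  or (minF x₁) (and (ex (sc 1) (and (minF (sc 1)) (sucF (sc 1) x₁))) (minF x₂))

end FP

open Pool.Agent.Work.MP_8dbde4_lc.TS.FP

/-- The number coded by a pair of elements. -/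
def OQ.val {𝔄 : Str σ A} (Q : OQ 𝔄) (a b : A) : ℕ := (Q.ρ a : ℕ) * Q.q + Q.ρ b

section sem

variable {𝔄 : Str σ A} (Q : OQ 𝔄) (w : ℕ → A) (γ : ℕ → List A → Prop)

include Q

lemma ev_lt (x y : ℕ) : (lt x y : FP σ).eval 𝔄 w γ ↔ (Q.ρ (w x) : ℕ) < Q.ρ (w y) := by
  rw [eval_lt, Q.lst]
  exact Fin.lt_def

lemma ev_eqL (x y : ℕ) : (eqL x y : FP σ).eval 𝔄 w γ ↔ Q.ρ (w x) = Q.ρ (w y) := by
  unfold eqL
  rw [eval_and, eval_neg, eval_neg, ev_lt Q, ev_lt Q, Fin.ext_iff]
  omega

lemma ev_minF (x : ℕ) (hx : x ≠ sc 0) :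
    (minF x : FP σ).eval 𝔄 w γ ↔ (Q.ρ (w x) : ℕ) = 0 := by
  unfold minF
  simp only [eval_neg, eval_ex, ev_lt Q, Function.update_self, Function.update_of_ne hx]
  constructor
  · intro h
    by_contra h0
    have hq := (Q.ρ (w x)).2
    obtain ⟨a, ha⟩ := Q.surj ⟨0, by omega⟩
    exact h ⟨a, by rw [ha]; simp only; omega⟩
  · rintro h ⟨a, ha⟩
    omega

lemma ev_maxF (x : ℕ) (hx : x ≠ sc 0) :
    (maxF x : FP σ).eval 𝔄 w γ ↔ (Q.ρ (w x) : ℕ) + 1 = Q.q := by
  unfold maxF
  simp only [eval_neg, eval_ex, ev_lt Q, Function.update_self, Function.update_of_ne hx]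
  have hq := (Q.ρ (w x)).2
  constructor
  · intro h
    by_contra h0
    obtain ⟨a, ha⟩ := Q.surj ⟨(Q.ρ (w x) : ℕ) + 1, by omega⟩
    exact h ⟨a, by rw [ha]; simp only; omega⟩
  · rintro h ⟨a, ha⟩
    have := (Q.ρ a).2
    omega

lemma ev_sucF (x y : ℕ) (hx : x ≠ sc 0) (hy : y ≠ sc 0) :
    (sucF x y : FP σ).eval 𝔄 w γ ↔ (Q.ρ (w y) : ℕ) = Q.ρ (w x) + 1 := by
  unfold sucF
  simp only [eval_and, eval_neg, eval_ex, ev_lt Q, Function.update_self,
    Function.update_of_ne hx, Function.update_of_ne hy]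
  constructor
  · rintro ⟨h1, h⟩
    by_contra h0
    have hq := (Q.ρ (w y)).2
    obtain ⟨a, ha⟩ := Q.surj ⟨(Q.ρ (w x) : ℕ) + 1, by omega⟩
    exact h ⟨a, by rw [ha]; simp only; omega⟩
  · intro h
    refine ⟨by omega, ?_⟩
    rintro ⟨a, ha⟩
    omega

lemma ev_suc2 (x₁ x₂ y₁ y₂ : ℕ) (h1 : x₁ ≠ sc 0) (h2 : x₂ ≠ sc 0) (h3 : y₁ ≠ sc 0)
    (h4 : y₂ ≠ sc 0) :
    (suc2 x₁ x₂ y₁ y₂ : FP σ).eval 𝔄 w γ ↔
      Q.val (w y₁) (w y₂) = Q.val (w x₁) (w x₂) + 1 := by
  unfold suc2 OQ.val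
  rw [eval_or, eval_and, eval_and, eval_and, ev_eqL Q, ev_sucF Q _ _ _ _ h2 h4,
    ev_sucF Q _ _ _ _ h1 h3, ev_maxF Q _ _ _ h2, ev_minF Q _ _ _ h4, Fin.ext_iff]
  have b1 := (Q.ρ (w x₁)).2
  have b2 := (Q.ρ (w x₂)).2
  have b3 := (Q.ρ (w y₁)).2
  have b4 := (Q.ρ (w y₂)).2
  generalize (Q.ρ (w x₁) : ℕ) = X1 at *
  generalize (Q.ρ (w x₂) : ℕ) = X2 at *
  generalize (Q.ρ (w y₁) : ℕ) = Y1 at *
  generalize (Q.ρ (w y₂) : ℕ) = Y2 at *
  generalize Q.q = q at *
  constructor
  · rintro (⟨rfl, h⟩ | ⟨h, h', h''⟩)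
    · omega
    · subst h
      rw [h'', add_mul]
      omega
  · intro h
    rcases lt_trichotomy X1 Y1 with hlt | heq | hgt
    · right
      have : (X1 + 1) * q ≤ Y1 * q := Nat.mul_le_mul_right _ hlt
      rw [add_mul] at this
      have h5 : X2 + 1 = q := by omega
      have h6 : Y2 = 0 := by omega
      refine ⟨?_, h5, h6⟩
      have h7 : Y1 * q = (X1 + 1) * q := by rw [add_mul]; omega
      exact Nat.eq_of_mul_eq_mul_right (by omega) h7
    · left
      subst heq
      exact ⟨rfl, by omega⟩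
    · exfalso
      have : (Y1 + 1) * q ≤ X1 * q := Nat.mul_le_mul_right _ hgt
      rw [add_mul] at this
      omega

omit Q in
lemma val_lt_iff (q X1 X2 Y1 Y2 : ℕ) (b2 : X2 < q) (b4 : Y2 < q) :
    X1 * q + X2 ≤ Y1 * q + Y2 ↔ X1 < Y1 ∨ (X1 = Y1 ∧ ¬ Y2 < X2) := by
  rcases lt_trichotomy X1 Y1 with hlt | heq | hgt
  · have : (X1 + 1) * q ≤ Y1 * q := Nat.mul_le_mul_right _ hlt
    rw [add_mul] at this
    constructor
    · intro _; exact Or.inl hlt
    · intro _; omega
  · subst heq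
    omega
  · have : (Y1 + 1) * q ≤ X1 * q := Nat.mul_le_mul_right _ hgt
    rw [add_mul] at this
    constructor
    · intro h; omega
    · rintro (h | ⟨h, _⟩) <;> omega

lemma ev_le2 (x₁ x₂ y₁ y₂ : ℕ) :
    (le2 x₁ x₂ y₁ y₂ : FP σ).eval 𝔄 w γ ↔ Q.val (w x₁) (w x₂) ≤ Q.val (w y₁) (w y₂) := by
  unfold le2 OQ.val
  rw [eval_or, eval_and, eval_neg, ev_eqL Q, ev_lt Q, ev_lt Q, Fin.ext_iff,
    val_lt_iff _ _ _ _ _ (Q.ρ (w x₂)).2 (Q.ρ (w y₂)).2]

lemma ev_valF (hq : 2 ≤ Q.q) (x₁ x₂ : ℕ) (h1 : x₁ ≠ sc 0) (h2 : x₂ ≠ sc 0) (h3 : x₁ ≠ sc 1) :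
    (valF x₁ x₂ : FP σ).eval 𝔄 w γ ↔ Q.val (w x₁) (w x₂) ≤ Q.q := by
  have h10 : sc 1 ≠ sc 0 := by rw [Ne, sc_inj]; omega
  unfold valF OQ.val
  simp only [eval_or, eval_and, eval_ex, ev_minF Q _ _ _ h1, ev_minF Q _ _ _ h2,
    ev_minF Q _ _ _ h10, ev_sucF Q _ _ _ _ h10 h1, Function.update_self,
    Function.update_of_ne h3]
  have b1 := (Q.ρ (w x₁)).2
  have b2 := (Q.ρ (w x₂)).2
  have e : (∃ a, (Q.ρ a : ℕ) = 0 ∧ (Q.ρ (w x₁) : ℕ) = Q.ρ a + 1) ↔ (Q.ρ (w x₁) : ℕ) = 1 := by
    constructor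
    · rintro ⟨a, ha, hb⟩
      omega
    · intro h
      obtain ⟨a, ha⟩ := Q.surj ⟨0, by omega⟩
      refine ⟨a, by rw [ha], ?_⟩
      rw [ha, h]
  rw [e]
  clear e
  generalize (Q.ρ (w x₁) : ℕ) = X1 at *
  generalize (Q.ρ (w x₂) : ℕ) = X2 at *
  generalize Q.q = q at *
  constructor
  · rintro (rfl | ⟨rfl, rfl⟩) <;> omega
  · intro h
    rcases Nat.lt_or_ge X1 2 with h5 | h5
    · interval_cases X1
      · left; rfl
      · right; omega
    · exfalso
      have : 2 * q ≤ X1 * q := Nat.mul_le_mul_right _ h5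
      omega

end sem

/-- The relation variable of FP which represents a typed relation variable of FPC. -/
def so (X : ℕ) (π : List Bool) : ℕ := 2 * Encodable.encode (X, π)

lemma so_inj {X Y : ℕ} {π π' : List Bool} (h : so X π = so Y π') : X = Y ∧ π = π' := by
  unfold so at h
  have h1 : Encodable.encode (X, π) = Encodable.encode (Y, π') := by omega
  simpa using Encodable.encode_injective h1

/-- The list of FP variables which represents a mixed list of FPC variables. -/
def flat : List (ℕ ⊕ ℕ) → List ℕ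
  | [] => []
  | Sum.inl x :: l => (4 * x) :: flat l
  | Sum.inr m :: l => (4 * m + 1) :: (4 * m + 2) :: flat l

/-- The number variables of a list are in range. -/
noncomputable def valA : List (ℕ ⊕ ℕ) → FP σ
  | [] => FP.tt
  | Sum.inl _ :: l => valA l
  | Sum.inr m :: l => FP.and (FP.valF (4 * m + 1) (4 * m + 2)) (valA l)

/-- Body of the induction which counts. -/
noncomputable def cBody (x : ℕ) (φ : FP σ) : FP σ :=
  FP.or (FP.and (minF (sc 1)) (FP.and (minF (sc 2)) (minF (sc 3))))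
    (FP.ex (4 * x) (FP.ex (sc 4) (FP.ex (sc 5) (FP.and (FP.app 3 [4 * x, sc 4, sc 5])
      (FP.and (sucF (4 * x) (sc 1))
        (FP.or (FP.and φ (suc2 (sc 4) (sc 5) (sc 2) (sc 3)))
          (FP.and (FP.neg φ) (FP.and (eqL (sc 4) (sc 2)) (eqL (sc 5) (sc 3))))))))))

/-- `#x φ = m` -/
noncomputable def cntF (x : ℕ) (φ : FP σ) (m : ℕ) : FP σ :=
  FP.ex (4 * x) (FP.ex (sc 4) (FP.ex (sc 5) (FP.and (maxF (4 * x))
    (FP.and (FP.ifp 3 [sc 1, sc 2, sc 3] (cBody x φ) [4 * x, sc 4, sc 5])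
      (FP.or (FP.and φ (suc2 (sc 4) (sc 5) (4 * m + 1) (4 * m + 2)))
        (FP.and (FP.neg φ) (FP.and (eqL (sc 4) (4 * m + 1)) (eqL (sc 5) (4 * m + 2)))))))))

/-- Translation of the atomic formulas. -/
noncomputable def TR : (R : σ.ord.S) → (Fin (σ.ord.ar R) → ℕ) → FP σ
  | none, xs => FP.lt (4 * xs (0 : Fin 2)) (4 * xs (1 : Fin 2))
  | some R, xs => exB tv (σ.ar R) (FP.and (FP.rel R (fun j => tv j))
      (bigAnd ((List.finRange (σ.ar R)).map (fun j : Fin (σ.ar R) => eqL (tv j) (4 * xs j)))))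

open Classical in
/-- The translation. -/
noncomputable def T : FPC σ.ord → FP σ
  | .rel R xs => TR R xs
  | .eq x y => eqL (4 * x) (4 * y)
  | .le m n => le2 (4 * m + 1) (4 * m + 2) (4 * n + 1) (4 * n + 2)
  | .app X ts => FP.app (so X (sorts ts)) (flat ts)
  | .neg φ => FP.neg (T φ)
  | .and φ ψ => FP.and (T φ) (T ψ)
  | .exE x φ => FP.ex (4 * x) (T φ)
  | .exN m φ => FP.ex (4 * m + 1) (FP.ex (4 * m + 2) (FP.and (valF (4 * m + 1) (4 * m + 2)) (T φ)))
  | .cnt x φ m => cntF x (T φ) m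
  | .ifp X ys φ ts => if sorts ts = sorts ys then
      FP.ifp (so X (sorts ys)) (flat ys) (FP.and (valA ys) (T φ)) (flat ts) else FP.ff

section env

variable {𝔄 : Str σ A} (Q : OQ 𝔄)

/-- The list `l` of elements represents the mixed list `u`. -/
def Rep : List (Fin Q.q ⊕ ℕ) → List A → Prop
  | [], [] => True
  | Sum.inl c :: u, a :: l => Q.ρ a = c ∧ Rep u l
  | Sum.inr k :: u, a :: b :: l => Q.val a b = k ∧ Rep u l
  | _, _ => False

/-- The assignment `(w, γ)` represents the assignment `(v, ν, β)`. -/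
structure Env (v : ℕ → Fin Q.q) (ν : ℕ → ℕ) (β : ℕ → List Bool → List (Fin Q.q ⊕ ℕ) → Prop)
    (w : ℕ → A) (γ : ℕ → List A → Prop) : Prop where
  e : ∀ x, Q.ρ (w (4 * x)) = v x
  n : ∀ m, Q.val (w (4 * m + 1)) (w (4 * m + 2)) = ν m
  r : ∀ X π u l, sorts u = π → Rep Q u l → (β X π u ↔ γ (so X π) l)

variable {Q} {v : ℕ → Fin Q.q} {ν : ℕ → ℕ} {β : ℕ → List Bool → List (Fin Q.q ⊕ ℕ) → Prop}
    {w : ℕ → A} {γ : ℕ → List A → Prop}

/-- Change of the value of an element variable and of the scratch variables. -/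
lemma Env.updE' (h : Env Q v ν β w γ) (x : ℕ) (c : Fin Q.q) (w' : ℕ → A) (γ' : ℕ → List A → Prop)
    (hw : ∀ y, y % 4 ≠ 3 → y ≠ 4 * x → w' y = w y) (hx : Q.ρ (w' (4 * x)) = c)
    (hγ : ∀ X, γ' (2 * X) = γ (2 * X)) : Env Q (Function.update v x c) ν β w' γ' where
  e y := by
    by_cases hy : y = x
    · subst hy
      rw [hx, Function.update_self]
    · rw [hw _ (by omega) (by omega), Function.update_of_ne hy, h.e]
  n m := by rw [hw _ (by omega) (by omega), hw _ (by omega) (by omega), h.n]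
  r X π u l h1 h2 := by
    rw [h.r X π u l h1 h2]
    unfold so
    rw [hγ]

lemma Env.scr (h : Env Q v ν β w γ) (w' : ℕ → A) (γ' : ℕ → List A → Prop)
    (hw : ∀ y, y % 4 ≠ 3 → w' y = w y)
    (hγ : ∀ X, γ' (2 * X) = γ (2 * X)) : Env Q v ν β w' γ' where
  e y := by rw [hw _ (by omega), h.e]
  n m := by rw [hw _ (by omega), hw _ (by omega), h.n]
  r X π u l h1 h2 := by
    rw [h.r X π u l h1 h2]
    unfold so
    rw [hγ]

lemma Env.updElem (h : Env Q v ν β w γ) (x : ℕ) (a : A) :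
    Env Q (Function.update v x (Q.ρ a)) ν β (Function.update w (4 * x) a) γ := by
  refine h.updE' x _ _ _ (fun y _ h2 => ?_) ?_ (fun _ => rfl)
  · rw [Function.update_of_ne h2]
  · rw [Function.update_self]

lemma Env.updNum (h : Env Q v ν β w γ) (m : ℕ) (a b : A) :
    Env Q v (Function.update ν m (Q.val a b)) β
      (Function.update (Function.update w (4 * m + 1) a) (4 * m + 2) b) γ where
  e y := by
    rw [Function.update_of_ne (by omega), Function.update_of_ne (by omega), h.e]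
  n k := by
    by_cases hk : k = m
    · subst hk
      rw [Function.update_self, Function.update_self, Function.update_of_ne (by omega),
        Function.update_self]
    · rw [Function.update_of_ne hk, Function.update_of_ne (by omega),
        Function.update_of_ne (by omega), Function.update_of_ne (by omega),
        Function.update_of_ne (by omega), h.n]
  r := h.r

lemma Env.updList : ∀ (ys : List (ℕ ⊕ ℕ)) {v : ℕ → Fin Q.q} {ν : ℕ → ℕ} {w : ℕ → A}
    (_ : Env Q v ν β w γ) (u : List (Fin Q.q ⊕ ℕ)) (l : List A), sorts u = sorts ys → Rep Q u l →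
    Env Q (updE v ys u) (updN ν ys u) β (upd w (flat ys) l) γ
  | [], v, ν, w, h, u, l, hs, hr => by
    cases u with
    | nil =>
      cases l with
      | nil => simpa [updE, updN, upd, flat] using h
      | cons a l => simp [Rep] at hr
    | cons c u => simp [sorts] at hs
  | Sum.inl y :: ys, v, ν, w, h, u, l, hs, hr => by
    match u, l, hr with
    | [], _, _ => simp [sorts] at hs
    | Sum.inr k :: u, _, _ => simp [sorts] at hs
    | Sum.inl c :: u, a :: l, hr =>
      obtain ⟨h1, h2⟩ := hr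
      subst h1
      have hs' : sorts u = sorts ys := by simpa [sorts] using hs
      exact Env.updList ys (h.updElem y a) u l hs' h2
  | Sum.inr y :: ys, v, ν, w, h, u, l, hs, hr => by
    match u, l, hr with
    | [], _, _ => simp [sorts] at hs
    | Sum.inl c :: u, _, _ => simp [sorts] at hs
    | Sum.inr k :: u, a :: b :: l, hr =>
      obtain ⟨h1, h2⟩ := hr
      subst h1
      have hs' : sorts u = sorts ys := by simpa [sorts] using hs
      exact Env.updList ys (h.updNum y a b) u l hs' h2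

lemma Env.updRel (h : Env Q v ν β w γ) (X : ℕ) (π : List Bool)
    (P : List (Fin Q.q ⊕ ℕ) → Prop) (P' : List A → Prop)
    (hP : ∀ u l, sorts u = π → Rep Q u l → (P u ↔ P' l)) :
    Env Q v ν (Function.update β X (Function.update (β X) π P)) w
      (Function.update γ (so X π) P') where
  e := h.e
  n := h.n
  r Y π' u l h1 h2 := by
    by_cases hY : Y = X ∧ π' = π
    · obtain ⟨rfl, rfl⟩ := hY
      rw [Function.update_self, Function.update_self, Function.update_self]
      exact hP u l h1 h2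
    · have hne : so Y π' ≠ so X π := fun h => hY (so_inj h)
      rw [Function.update_of_ne hne]
      by_cases hX : Y = X
      · subst hX
        have hπ : π' ≠ π := fun h => hY ⟨rfl, h⟩
        rw [Function.update_self, Function.update_of_ne hπ]
        exact h.r Y π' u l h1 h2
      · rw [Function.update_of_ne hX]
        exact h.r Y π' u l h1 h2

lemma rep_map (h : Env Q v ν β w γ) : ∀ ts : List (ℕ ⊕ ℕ),
    Rep Q (ts.map (Sum.map v ν)) ((flat ts).map w)
  | [] => by simp [flat, Rep]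
  | Sum.inl x :: ts => ⟨h.e x, rep_map h ts⟩
  | Sum.inr m :: ts => ⟨h.n m, rep_map h ts⟩

lemma sorts_map {C D C' D' : Type} (f : C → C') (g : D → D') (ts : List (C ⊕ D)) :
    sorts (ts.map (Sum.map f g)) = sorts ts := by
  induction ts with
  | nil => rfl
  | cons t ts ih =>
    unfold sorts at ih ⊢
    cases t <;> simp only [List.map_cons, ih] <;> rfl

lemma rep_length : ∀ (ys : List (ℕ ⊕ ℕ)) (u : List (Fin Q.q ⊕ ℕ)) (l : List A),
    sorts u = sorts ys → Rep Q u l → l.length = (flat ys).length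
  | [], u, l, hs, hr => by
    cases u with
    | nil =>
      cases l with
      | nil => rfl
      | cons a l => simp [Rep] at hr
    | cons c u => simp [sorts] at hs
  | Sum.inl y :: ys, u, l, hs, hr => by
    match u, l, hr with
    | [], _, _ => simp [sorts] at hs
    | Sum.inr k :: u, _, _ => simp [sorts] at hs
    | Sum.inl c :: u, a :: l, hr =>
      have hs' : sorts u = sorts ys := by simpa [sorts] using hs
      have := rep_length ys u l hs' hr.2
      simp [flat, this]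
  | Sum.inr y :: ys, u, l, hs, hr => by
    match u, l, hr with
    | [], _, _ => simp [sorts] at hs
    | Sum.inl c :: u, _, _ => simp [sorts] at hs
    | Sum.inr k :: u, a :: b :: l, hr =>
      have hs' : sorts u = sorts ys := by simpa [sorts] using hs
      have := rep_length ys u l hs' hr.2
      simp [flat, this]

end env

lemma mem_flat : ∀ (ys : List (ℕ ⊕ ℕ)) (z : ℕ), z ∈ flat ys →
    (∃ x, Sum.inl x ∈ ys ∧ z = 4 * x) ∨ (∃ m, Sum.inr m ∈ ys ∧ (z = 4 * m + 1 ∨ z = 4 * m + 2))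
  | [], z, h => by simp [flat] at h
  | Sum.inl y :: ys, z, h => by
    rcases List.mem_cons.1 h with rfl | h
    · exact Or.inl ⟨y, by simp, rfl⟩
    · rcases mem_flat ys z h with ⟨x, hx, h'⟩ | ⟨m, hm, h'⟩
      · exact Or.inl ⟨x, List.mem_cons_of_mem _ hx, h'⟩
      · exact Or.inr ⟨m, List.mem_cons_of_mem _ hm, h'⟩
  | Sum.inr y :: ys, z, h => by
    rcases List.mem_cons.1 h with rfl | h
    · exact Or.inr ⟨y, by simp, Or.inl rfl⟩
    · rcases List.mem_cons.1 h with rfl | h
      · exact Or.inr ⟨y, by simp, Or.inr rfl⟩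
      · rcases mem_flat ys z h with ⟨x, hx, h'⟩ | ⟨m, hm, h'⟩
        · exact Or.inl ⟨x, List.mem_cons_of_mem _ hx, h'⟩
        · exact Or.inr ⟨m, List.mem_cons_of_mem _ hm, h'⟩

lemma flat_nodup : ∀ (ys : List (ℕ ⊕ ℕ)), ys.Nodup → (flat ys).Nodup
  | [], _ => by simp [flat]
  | Sum.inl y :: ys, h => by
    rw [List.nodup_cons] at h
    rw [flat, List.nodup_cons]
    refine ⟨fun hm => ?_, flat_nodup ys h.2⟩
    rcases mem_flat ys _ hm with ⟨x, hx, h'⟩ | ⟨m, hm, h'⟩
    · have : y = x := by omega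
      exact h.1 (this ▸ hx)
    · omega
  | Sum.inr y :: ys, h => by
    rw [List.nodup_cons] at h
    rw [flat, List.nodup_cons, List.nodup_cons]
    refine ⟨fun hm => ?_, fun hm => ?_, flat_nodup ys h.2⟩
    · rcases List.mem_cons.1 hm with hm | hm
      · omega
      · rcases mem_flat ys _ hm with ⟨x, hx, h'⟩ | ⟨m, hm, h'⟩
        · omega
        · have : y = m := by omega
          exact h.1 (this ▸ hm)
    · rcases mem_flat ys _ hm with ⟨x, hx, h'⟩ | ⟨m, hm, h'⟩
      · omega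
      · have : y = m := by omega
        exact h.1 (this ▸ hm)

lemma flat_nodup' : ∀ (ys : List (ℕ ⊕ ℕ)), (flat ys).Nodup → ys.Nodup
  | [], _ => by simp
  | Sum.inl y :: ys, h => by
    rw [flat, List.nodup_cons] at h
    rw [List.nodup_cons]
    refine ⟨fun hm => h.1 ?_, flat_nodup' ys h.2⟩
    clear h
    induction ys with
    | nil => simp at hm
    | cons z zs ih =>
      rcases List.mem_cons.1 hm with hz | hm'
      · subst hz
        simp [flat]
      · cases z with
        | inl z => exact List.mem_cons_of_mem _ (ih hm')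
        | inr z => exact List.mem_cons_of_mem _ (List.mem_cons_of_mem _ (ih hm'))
  | Sum.inr y :: ys, h => by
    rw [flat, List.nodup_cons, List.nodup_cons] at h
    rw [List.nodup_cons]
    refine ⟨fun hm => h.2.1 ?_, flat_nodup' ys h.2.2⟩
    clear h
    induction ys with
    | nil => simp at hm
    | cons z zs ih =>
      rcases List.mem_cons.1 hm with hz | hm'
      · subst hz
        simp [flat]
      · cases z with
        | inl z => exact List.mem_cons_of_mem _ (ih hm')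
        | inr z => exact List.mem_cons_of_mem _ (List.mem_cons_of_mem _ (ih hm'))

lemma updN_of_notMem {C : Type} (m : ℕ) : ∀ (ys : List (ℕ ⊕ ℕ)) (ν : ℕ → ℕ) (u : List (C ⊕ ℕ)),
    Sum.inr m ∉ ys → updN ν ys u m = ν m
  | [], ν, u, _ => by cases u <;> rfl
  | Sum.inl y :: ys, ν, [], _ => rfl
  | Sum.inr y :: ys, ν, [], _ => rfl
  | Sum.inl y :: ys, ν, c :: u, h => updN_of_notMem m ys ν u (fun h' => h (List.mem_cons_of_mem _ h'))
  | Sum.inr y :: ys, ν, Sum.inl c :: u, h =>
    updN_of_notMem m ys ν u (fun h' => h (List.mem_cons_of_mem _ h'))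
  | Sum.inr y :: ys, ν, Sum.inr k :: u, h => by
    have h1 : m ≠ y := fun h' => h (by rw [h']; exact List.mem_cons_self)
    show updN (Function.update ν y k) ys u m = ν m
    rw [updN_of_notMem m ys _ u (fun h' => h (List.mem_cons_of_mem _ h')),
      Function.update_of_ne h1]

lemma updN_range {C : Type} (N : ℕ) : ∀ (ys : List (ℕ ⊕ ℕ)) (ν : ℕ → ℕ) (u : List (C ⊕ ℕ)),
    ys.Nodup → sorts u = sorts ys →
    ((∀ m, Sum.inr m ∈ ys → updN ν ys u m ≤ N) ↔ ∀ k, Sum.inr k ∈ u → k ≤ N)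
  | [], ν, u, _, hs => by
    cases u with
    | nil => simp
    | cons c u => simp [sorts] at hs
  | Sum.inl y :: ys, ν, [], _, hs => by simp [sorts] at hs
  | Sum.inr y :: ys, ν, [], _, hs => by simp [sorts] at hs
  | Sum.inl y :: ys, ν, Sum.inr k :: u, _, hs => by simp [sorts] at hs
  | Sum.inr y :: ys, ν, Sum.inl c :: u, _, hs => by simp [sorts] at hs
  | Sum.inl y :: ys, ν, Sum.inl c :: u, hn, hs => by
    have hs' : sorts u = sorts ys := by simpa [sorts] using hs
    have := updN_range N ys ν u (List.nodup_cons.1 hn).2 hs'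
    simpa [updN] using this
  | Sum.inr y :: ys, ν, Sum.inr k :: u, hn, hs => by
    have hs' : sorts u = sorts ys := by simpa [sorts] using hs
    have hn' := List.nodup_cons.1 hn
    have ih := updN_range N ys (Function.update ν y k) u hn'.2 hs'
    have e : updN (Function.update ν y k) ys u y = k := by
      rw [updN_of_notMem y ys _ u hn'.1, Function.update_self]
    constructor
    · intro h j hj
      rcases List.mem_cons.1 hj with hj | hj
      · obtain rfl : j = k := by simpa using hj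
        have := h y List.mem_cons_self
        have h2 : updN ν (Sum.inr y :: ys) (Sum.inr j :: u) y = j := e
        omega
      · exact ih.1 (fun m hm => h m (List.mem_cons_of_mem _ hm)) j hj
    · intro h m hm
      rcases List.mem_cons.1 hm with hm | hm
      · obtain rfl : m = y := by simpa using hm
        have h2 : updN ν (Sum.inr m :: ys) (Sum.inr k :: u) m = k := e
        rw [h2]
        exact h k List.mem_cons_self
      · exact ih.2 (fun j hj => h j (List.mem_cons_of_mem _ hj)) m hm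

end Pool.Agent.Work.MP_8dbde4_lc.TS
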